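import Pool.Agent.H4.D1.Nto

/-!
# The frame and natural coordinates of a box

`lvl_bd`, `l0_bd`, `win_bd`: the levels, the labels of `c 0`, good labels in a box. `evd`: on a part of
every large event there are an affine frame and natural coordinates at the windows of a list.
-/

set_option autoImplicit false

namespace Pool.T4J

open Finset Real MvPolynomial
open Pool.Agent.H49.Ent Pool.Agent.H32.Dense
open Pool.STK hiding pr2
open Pool.KA Pool.KSAT Pool.K2S Pool.PB Pool.S6C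
open Pool.GEN Pool.CHT Pool.CHX Pool.ISO
open Pool.D2R Pool.GF64
open Pool.D2F2 (hgp vlp ojet_hgp ojet_vlp)
open Pool.RCD Pool.LA91
open Pool.GRD (LbP)
open Pool.BFL (Pb)
open Pool.LIV (Pb_mono25 Pb_or25 Pb_ex25)
open Pool.GRW (tmc_bas)
open Pool.AVG57 (upw upw_slam)
open Pool.FVL91 (coe1 eval_one)
open Pool.V0F (LbE)
open Pool.T4N (Frm FrmP fX fV)
open Pool.D164 (NatE NatO BoxD AffD AfK EvD EvDStmt wF pF)

variable {m : ℕ} {S : PCl m} {c : ℕ → Fin m} {D : ℕ} {sn : ℕ → ℝ → ℝ} {G : Set ℝ}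
  {s σ hr b o t q Λ φ' e : ℝ} {bl pl : ℕ → ℝ}

/-- **The levels of a box.** -/
theorem lvl_bd (Bx : BoxD S c D sn G s σ hr b o t q Λ φ') (hs : 1 < s) (he : 0 ≤ e)
    (hΛ : 0 ≤ Λ * q) (hfr : AffD S c sn t (e * q) bl pl)
    (hlab : ∀ v ∈ G, t ≤ v → v ≤ t + Λ * q → ∃ bl' pl' : ℕ → ℝ, AffD S c sn v (e * q) bl' pl')
    {v : ℝ} (hv : v ∈ G) (htv : t ≤ v) (hvΛ : v ≤ t + Λ * q) :
    Lvl S c 2 sn G t v φ' (3 * φ') s (e * q) (fun l => bl (l - 1)) (fun l => pl (l - 1)) := by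
  have LL := Bx.lad
  have hq := Bx.u0
  have hbt : b ≤ t := by linarith [Bx.bw]
  have hto : t + Λ * q ≤ o := Bx.wo
  have hφ := LL.φ0
  refine ⟨LL.tm, ⟨3, by norm_num, LL.ch⟩, LL.inj.mono fun y hy => ?_, Bx.wG, hv, htv, hφ,
    by linarith, by linarith, mul_nonneg he hq.le,
    fun x h1 h2 => LL.gap x (hbt.trans h1) (by linarith), ?_, ?_, ?_, ?_⟩
  · rw [Set.mem_Iio] at hy ⊢
    omega
  · intro i h1 h2 l hl x hx x' hx' g1 g2 g3
    have hbx : b ≤ x := hbt.trans g1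
    have hxo : x' ≤ o := by linarith
    rcases Nat.eq_zero_or_pos l with h3 | h3
    · subst h3
      have e1 := LL.fl 0 (by norm_num) x hx hbx (g2.trans hxo)
      have e2 := LL.fl 0 (by norm_num) x' hx' (hbx.trans g2) hxo
      have e3 := LL.st i h1 (by omega) x hx x' hx' hbx g2 hxo
      rw [abs_le] at e1 e2
      linarith [e1.1, e1.2, e2.1, e2.2]
    · obtain rfl : l = 1 := by omega
      obtain rfl : i = 2 := by omega
      have e1 := LL.eq 2 (by norm_num) (by norm_num) x hx x' hx' hbx g2 hxo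
      rw [abs_le] at e1
      linarith [e1.1, e1.2]
  · intro l hl x hx x' hx' g1 g2 g3
    have hbx : b ≤ x := hbt.trans g1
    have hxo : x' ≤ o := by linarith
    rcases Nat.eq_zero_or_pos l with h3 | h3
    · subst h3
      have e1 := LL.fl 0 (by norm_num) x hx hbx (g2.trans hxo)
      have e2 := LL.fl 0 (by norm_num) x' hx' (hbx.trans g2) hxo
      have e3 : 1 * (x' - x) ≤ s * (x' - x) := mul_le_mul_of_nonneg_right hs.le (by linarith)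
      rw [abs_le] at e1 e2
      linarith [e1.1, e1.2, e2.1, e2.2]
    · have e1 := Bx.lin l h3 (by omega) x hx hbx (g2.trans hxo)
      have e2 := Bx.lin l h3 (by omega) x' hx' (hbx.trans g2) hxo
      have e3 : s * (x' - x) = s * (x' - t) - s * (x - t) := by ring
      rw [abs_le] at e1 e2
      linarith [e1.1, e1.2, e2.1, e2.2]
  · intro l h1 h2
    have h3 := hfr (l - 1) (by omega)
    rw [show 1 + (l - 1) = l by omega] at h3
    exact ⟨h3.1, h3.2.1⟩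
  · intro w hw h1 h2
    obtain ⟨bl', pl', h3⟩ := hlab w hw h1 (by linarith)
    refine ⟨fun l => bl' (l - 1), fun l => pl' (l - 1), fun l g1 g2 => ?_⟩
    have h4 := h3 (l - 1) (by omega)
    rw [show 1 + (l - 1) = l by omega] at h4
    exact h4

/-- The closed label of `c 0` of a box. -/
theorem l0_bd (Bx : BoxD S c D sn G s σ hr b o t q Λ φ') (hΛ : 0 ≤ Λ * q) {v : ℝ} (hv : v ∈ G)
    (htv : t ≤ v) (hvΛ : v ≤ t + Λ * q) {e' : ℝ} (he' : 0 < e') :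
    Bas S (fun J F A => Lb0 F c D ⌊v * J⌋₊ ⌊(sn 0 v - e') * J⌋₊ A) := by
  obtain ⟨E, rd, ρ, -, -, h1⟩ := Bx.lab v hv (by linarith [Bx.bw]) (by linarith [Bx.wo])
  refine Bas.mono 0 (h1 e' he') ?_
  rintro J - F A ⟨V, z, z', g, hl⟩
  have h2 := LbP.of (hl 0 (by norm_num))
  rw [show (range 0).image c = ∅ by simp] at h2
  exact ⟨V, z, z', _, h2⟩

/-- **Good labels**, for all labels of the window. -/
def WinP {J : ℕ} (F : Fam m J) (c : ℕ → Fin m) (v : ℝ) (s : ℕ → ℝ) (ε θ R η : ℝ)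
    (A : F.Ω → Prop) : Prop :=
  ∀ (Q : ℕ → ℕ) (GG : PtT F → ℕ → MvPolynomial (Option (Fin m)) ℝ)
    (HH : LnT F → ℕ → MvPolynomial (Option (Fin m)) ℝ) (Q' : ℕ)
    (GG' : PtT F → MvPolynomial (Option (Fin m)) ℝ)
    (HH' : LnT F → MvPolynomial (Option (Fin m)) ℝ),
    (∀ l, 1 ≤ l → l ≤ 3 → LbQ F c l ⌊v * J⌋₊ (Q l) A (fun y => GG y l) (fun s => HH s l)) →
    (∀ l, 1 ≤ l → l ≤ 3 → (1 : ℝ) / 2 ^ Q l ≤ 2 * 2 ^ (-(s l - θ) * J)) →
    LbQ F c 3 ⌊v * J⌋₊ Q' A GG' HH' →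
    Pb (Pool.Agent.H49.Ent.cond F.p A True) (fun ω => ¬ WinOk F c 3 v s (ε + 16 * θ) R
      (1 / 2 ^ Q 3) (1 / 2 ^ Q') (HH (slam F ⌊v * J⌋₊ ω)) (HH' (slam F ⌊v * J⌋₊ ω)) ω) ≤ η

/-- **Good labels in a box.** -/
theorem win_bd (hpos : ∀ (τ : ℝ) (J : ℕ) (F : Fam m J) (A : F.Ω → Prop), S.St τ J F A → 0 < Pe F.p A)
    (Bx : BoxD S c D sn G s σ hr b o t q Λ φ') (hΛ : 0 ≤ Λ * q) {v : ℝ} (hv : v ∈ G)
    (htv : t ≤ v) (hvΛ : v ≤ t + Λ * q) {θ : ℝ} (hθ : 0 ≤ θ) {ε : ℝ} (hε : 0 < ε) {η : ℝ}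
    (hη : 0 < η) : Bas S (fun J F A => WinP F c v (fun l => sn l v) ε θ (1 - Λ * q) η A) := by
  obtain ⟨C₀, htm⟩ := Bx.lad.tm
  obtain ⟨E, rd, ρ, -, h1, h2⟩ := Bx.lab v hv (by linarith [Bx.bw]) (by linarith [Bx.wo])
  have key := win_cls hpos htm (n := 3) (by norm_num) Bx.lad.ch Bx.lad.inj hv (D := D) (E := E)
    (rd := rd) h2 (R := 1 - Λ * q) (fun l hl => (h1 l hl).1)
    (fun l hl => by linarith [(h1 l hl).2.1]) (by linarith [Bx.wo, Bx.o1]) hθ hε hη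
  refine Bas.mono 0 key ?_
  intro J _ F A h Q GG HH Q' GG' HH' k1 k2 k3
  have h3 := h Q GG HH Q' GG' HH' k1 k2 k3
  have e1 : ε + (((3 : ℕ) : ℝ) + 1) * ((((3 : ℕ) : ℝ) + 1) * θ) = ε + 16 * θ := by
    push_cast
    ring
  rw [e1] at h3
  exact h3

/-- **The frame and natural coordinates exist** on a part of every event. -/
theorem evd : EvDStmt := by
  classical
  intro s σ hs hsσ
  refine ⟨310 + 100 * s, by linarith, ?_⟩
  intro m D S c sn G hr b o t q Λ φ' e bl pl hpos Bx he hφe hfr hlab hb2 hp2 n vs hv0 hvs hAK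
    e₀ he₀
  have hq := Bx.u0
  obtain ⟨z, hz⟩ : ∃ z : ℝ, z = e * q := ⟨_, rfl⟩
  rw [← hz] at hφe hAK hfr hlab hp2 ⊢
  have hz0 : 0 < z := by
    rw [hz]
    exact mul_pos he hq
  have hΛ : 0 ≤ Λ * q := by
    have h1 := (hvs 0 (Nat.zero_le _)).2.2
    rw [hv0] at h1
    linarith
  have hφ0 := Bx.lad.φ0
  have hbt : b ≤ t := by linarith [Bx.bw]
  have hto : t + Λ * q ≤ o := Bx.wo
  have hlab' : ∀ v ∈ G, t ≤ v → v ≤ t + Λ * q → ∃ bl' pl' : ℕ → ℝ,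
      AffD S c sn v (e * q) bl' pl' := by
    rw [← hz]
    exact hlab
  have hfr' : AffD S c sn t (e * q) bl pl := by
    rw [← hz]
    exact hfr
  -- the labels of `c 1`, `c 2`
  obtain ⟨e₁, he₁, H₁⟩ := lbwQ_ex (D := D) hpos (K := n + 1) (vs := vs)
    (fun k hk => lvl_bd Bx hs he.le hΛ hfr' hlab' (hvs k (by omega)).1 (hvs k (by omega)).2.1
      (hvs k (by omega)).2.2)
    (fun k hk e' he' => l0_bd Bx hΛ (hvs k (by omega)).1 (hvs k (by omega)).2.1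
      (hvs k (by omega)).2.2 he') hz0 (show (0 : ℝ) < 1 / 2 by norm_num)
  obtain ⟨ε₁, hε₁⟩ : ∃ ε₁ : ℝ, ε₁ = z + ((2 : ℕ) : ℝ) * ((((2 : ℕ) : ℝ) + 1) * (e * q) +
      (3 * s * φ' + 2 * (3 * φ'))) := ⟨_, rfl⟩
  rw [← hε₁] at H₁
  have hsφ : s * φ' ≤ s * z := mul_le_mul_of_nonneg_left hφe (by linarith)
  have hsφ0 : 0 < s * φ' := mul_pos (by linarith) hφ0
  have hsz : 0 < s * z := mul_pos (by linarith) hz0
  have hε₁0 : 0 ≤ ε₁ := by
    rw [hε₁, ← hz]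
    push_cast
    linarith
  have hε₁1 : ε₁ ≤ (19 + 6 * s) * z := by
    rw [hε₁, ← hz]
    push_cast
    linarith
  obtain ⟨θ, hθ⟩ : ∃ θ : ℝ, θ = (19 + 6 * s) * z := ⟨_, rfl⟩
  have hθ0 : 0 ≤ θ := by
    rw [hθ]
    linarith
  obtain ⟨ez, hez⟩ : ∃ ez : ℝ, ez = min e₀ (min e₁ z) := ⟨_, rfl⟩
  have hez0 : 0 < ez := by
    rw [hez]
    exact lt_min he₀ (lt_min he₁ hz0)
  have hez1 : ez ≤ e₀ := by
    rw [hez]
    exact min_le_left _ _
  have hez2 : ez ≤ e₁ := by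
    rw [hez]
    exact (min_le_right _ _).trans (min_le_left _ _)
  have hez3 : ez ≤ z := by
    rw [hez]
    exact (min_le_right _ _).trans (min_le_right _ _)
  obtain ⟨c₁, hc₁, H₀⟩ := hAK ez hez0
  -- the masses
  obtain ⟨η, hη⟩ : ∃ η : ℝ, η = 1 / (2 * ((n : ℝ) + 6)) := ⟨_, rfl⟩
  have hn0 : (0 : ℝ) ≤ n := Nat.cast_nonneg n
  have hη0 : 0 < η := by
    rw [hη]
    positivity
  have hη1 : ((n : ℝ) + 6) * η = 1 / 2 := by
    rw [hη]
    field_simp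
  obtain ⟨C₀, htm⟩ := Bx.lad.tm
  obtain ⟨u₁, rd', -, hchn⟩ := Bx.lad.ch.ch t Bx.wG
  have ht0 : 0 ≤ t := hchn.w0
  have ht1 : t < 1 := hchn.u0
  have b2 : Bas S (fun J F A => ∀ k < n + 1,
      WinP F c (vs k) (fun l => sn l (vs k)) z θ (1 - Λ * q) η A) :=
    Bas.all (n + 1) fun k hk => win_bd hpos Bx hΛ (hvs k (by omega)).1 (hvs k (by omega)).2.1
      (hvs k (by omega)).2.2 hθ0 hz0 hη0
  have b3 : Bas S (fun J F A => ∀ l < 4, OwP F c l 1 t (1 / 2) η A) :=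
    Bas.all 4 fun l _ => own_cls htm ((range l).image c) (c l) 1 1 ht0 ht1 hη0 (by norm_num)
  have bf : Bas S (fun J F A => ∀ l < 2, ∃ (V : Type) (y : PtT F → V) (y' : LnT F → V)
      (T : V → MvPolynomial (Option (Fin m)) ℝ), LbP F ((range (1 + l)).image c) (c (1 + l)) 1 J
        ⌊bl l * J⌋₊ ⌊(pl l - ez) * J⌋₊ A y y' T) :=
    Bas.all 2 fun l hl => (hfr l hl).2.2 ez hez0
  obtain ⟨J₁, hJ₁⟩ := E_big (a := z) (C := 4) hz0
  refine ⟨c₁ / 4, by positivity, Bas.mono J₁ ((((H₀.and bf).and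
    (Pool.GRW.bas_part H₁ (c := 1 / c₁) (by positivity))).and
    (Pool.GRW.bas_part (b2.and b3) (c := 2 / c₁) (by positivity))).and
    ⟨1, one_pos, 0, fun J _ F A hA => hpos 1 J F A hA⟩) ?_⟩
  rintro J hJ F A ⟨⟨⟨⟨⟨B₁, hB₁, hm₁, V, y, y', Q, hQ, hQc⟩, hf⟩, h1⟩, h2⟩, hA⟩
  have hJ0 : (0 : ℝ) ≤ J := Nat.cast_nonneg J
  have f4 : (4 : ℝ) ≤ 2 ^ (z * J) := hJ₁ J hJ
  have hvJ : ∀ k ≤ n, ⌊vs k * (J : ℝ)⌋₊ ≤ J := fun k hk =>
    floor_le (by linarith [(hvs k hk).2.2, Bx.o1]) J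
  -- the frame
  have hex : ∀ i : Fin 3, ∃ (V' : Type) (x : PtT F → V') (x' : LnT F → V')
      (T : V' → MvPolynomial (Option (Fin m)) ℝ), LbP F ((range (1 + (i : ℕ))).image c)
        (c (1 + (i : ℕ))) 1 J ⌊bl i * J⌋₊ ⌊(pl i - ez) * J⌋₊ B₁ x x' T ∧
        (i = 2 → ∀ s, T (x' s) = Q 0 (y' 0 s)) := by
    intro i
    by_cases h : (i : ℕ) < 2
    · obtain ⟨V', x, x', T, k1⟩ := hf i h
      refine ⟨V', x, x', T, k1.sub hB₁, fun h3 => ?_⟩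
      rw [h3] at h
      exact absurd h (by decide)
    · obtain rfl : i = 2 := Fin.ext (by
        have := i.2
        show (i : ℕ) = 2
        omega)
      refine ⟨V 0, y 0, y' 0, Q 0, ?_, fun _ _ => rfl⟩
      have k1 : LbP F ((range 3).image c) (c 3) 1 J ⌊vs 0 * J⌋₊
        ⌊(sn 3 (vs 0) - z - ez) * J⌋₊ B₁ (y 0) (y' 0) (Q 0) := hQ 0 (Nat.zero_le _)
      rw [hv0, ← hp2] at k1
      show LbP F ((range 3).image c) (c 3) 1 J ⌊bl 2 * J⌋₊ ⌊(pl 2 - ez) * J⌋₊ B₁ (y 0) (y' 0) (Q 0)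
      rw [hb2]
      exact k1
  choose VF xF xF' TF hTF hTF2 using hex
  obtain ⟨Fr, hFr⟩ : ∃ Fr : Frm F, Fr = ⟨VF, xF, xF', TF⟩ := ⟨_, rfl⟩
  have hFl : ∀ i : Fin 3, LbP F ((range (1 + (i : ℕ))).image c) (c (1 + (i : ℕ))) 1 J
      (wF bl J i) ⌊(pl i - ez) * J⌋₊ B₁ (Fr.z i) (Fr.z' i) (Fr.G i) := by
    intro i
    rw [hFr]
    exact hTF i
  have hF2 : ∀ ω, Fr.G 2 (Fr.z' 2 (slam F (wF bl J 2) ω)) = Q 0 (y' 0 (slam F ⌊vs 0 * J⌋₊ ω)) := by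
    intro ω
    have e1 : wF bl J 2 = ⌊vs 0 * J⌋₊ := by
      unfold wF
      rw [hv0]
      show ⌊bl 2 * (J : ℝ)⌋₊ = _
      rw [hb2]
    rw [e1, hFr]
    exact hTF2 2 rfl _
  have hblt : ∀ i : Fin 3, bl i ≤ t := by
    intro i
    by_cases h : (i : ℕ) < 2
    · exact (hfr i h).1
    · have e1 : (i : ℕ) = 2 := by
        have := i.2
        omega
      rw [e1, hb2]
  have hwv : ∀ k ≤ n, ∀ i : Fin 3, wF bl J i ≤ ⌊vs k * J⌋₊ := fun k hk i =>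
    Nat.floor_le_floor (mul_le_mul_of_nonneg_right ((hblt i).trans (hvs k hk).2.1) hJ0)
  have hLbA : LbA F c 2 (fun l => bl (l - 1)) (fun l => pl (l - 1)) e₁ B₁ (frG Fr) (frH Fr) := by
    intro l g1 g2
    obtain ⟨i, hi⟩ : ∃ i : Fin 3, 1 + (i : ℕ) = l := ⟨⟨l - 1, by omega⟩, by
      show 1 + (l - 1) = l
      omega⟩
    subst hi
    have e1 : 1 + (i : ℕ) - 1 = i := by omega
    show LbQ F c (1 + (i : ℕ)) ⌊bl (1 + (i : ℕ) - 1) * J⌋₊ ⌊(pl (1 + (i : ℕ) - 1) - e₁) * J⌋₊ B₁ _ _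
    rw [e1]
    exact ⟨Fr.V i, Fr.z i, Fr.z' i, Fr.G i, (hFl i).mono (Finset.Subset.refl _) le_rfl
      (Nat.floor_le_floor (mul_le_mul_of_nonneg_right (by linarith) hJ0)),
      fun y => frG_in Fr y i, fun s => frH_in Fr s i⟩
  -- the natural labels
  have hm₁' : Pe F.p A ≤ 1 / c₁ * Pe F.p B₁ := by
    rw [one_div_mul_eq_div, le_div_iff₀ hc₁]
    linarith
  obtain ⟨B₂, hB₂, hm₂, hl⟩ := h1 B₁ hB₁ hm₁' (frG Fr) (frH Fr) hLbA
  have hm₂' : c₁ / 2 * Pe F.p A ≤ Pe F.p B₂ := by linarith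
  have hB₂A : Sub B₂ A := fun ω h => hB₁ ω (hB₂ ω h)
  have hB₂0 : 0 < Pe F.p B₂ := lt_of_lt_of_le (by positivity) hm₂'
  obtain ⟨hwin, hown⟩ := h2 B₂ hB₂A (by
    rw [div_mul_eq_mul_div, le_div_iff₀ hc₁]
    linarith)
  have h0 := (isLaw_cond F.isLaw hB₂0).nonneg
  have hex2 : ∀ k, ∃ (GB : PtT F → ℕ → MvPolynomial (Option (Fin m)) ℝ)
      (HB : LnT F → ℕ → MvPolynomial (Option (Fin m)) ℝ), k < n + 1 →
      LbN F c 2 B₂ (vs k) (fun l => sn l t) (fun l => sn l (vs k)) ε₁ (frG Fr) GB HB ∧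
      ∀ l, 1 ≤ l → l ≤ 2 → LbQ F c l ⌊vs k * J⌋₊ ⌊(sn l (vs k) - ε₁) * J⌋₊ B₂ (fun y => GB y l)
        (fun s => HB s l) := by
    intro k
    by_cases h : k < n + 1
    · obtain ⟨⟨GB, HB, k1, k2⟩, -⟩ := hl k h
      exact ⟨GB, HB, fun _ => ⟨k1, k2⟩⟩
    · exact ⟨fun _ _ => 0, fun _ _ => 0, fun h' => absurd h' h⟩
  choose GB HB hGH using hex2
  -- the labels of the windows
  have hT2 : ∀ k ≤ n, LbP F ((range 3).image c) (c 3) 1 J ⌊vs k * J⌋₊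
      ⌊(sn 3 (vs k) - z - ez) * J⌋₊ B₂ (y k) (y' k) (Q k) := fun k hk => (hQ k hk).sub hB₂
  have hF3 : ∀ k ≤ n, ∀ i : Fin 3, LbP F ((range (1 + (i : ℕ))).image c) (c (1 + (i : ℕ))) 1 J
      ⌊vs k * J⌋₊ ⌊(pl i - ez) * J⌋₊ B₂ (Fr.z i)
      (fun s => Fr.z' i (upw (wF bl J i) ⌊vs k * J⌋₊ s)) (Fr.G i) := fun k hk i =>
    ((hFl i).sub hB₂).win (hwv k hk i) (hvJ k hk)
  have W1 : ∀ k < n + 1, Pb (Pool.Agent.H49.Ent.cond F.p B₂ True) (fun ω =>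
      ¬ WinOk F c 3 (vs k) (fun l => sn l (vs k)) (z + 16 * θ) (1 - Λ * q)
        (1 / 2 ^ ⌊(sn 3 (vs k) - z - ez) * J⌋₊) (1 / 2 ^ ⌊(pl 2 - ez) * J⌋₊)
        (fun l => if l ≤ 2 then HB k (slam F ⌊vs k * J⌋₊ ω) l else
          Q k (y' k (slam F ⌊vs k * J⌋₊ ω)))
        (Fr.G 2 (Fr.z' 2 (slam F (wF bl J 2) ω))) ω) ≤ η := by
    intro k hk
    have k1 := hwin k hk (fun l => if l ≤ 2 then ⌊(sn l (vs k) - ε₁) * J⌋₊ else
        ⌊(sn 3 (vs k) - z - ez) * J⌋₊)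
      (fun x l => if l ≤ 2 then GB k x l else Q k (y k x))
      (fun s l => if l ≤ 2 then HB k s l else Q k (y' k s)) ⌊(pl 2 - ez) * J⌋₊
      (fun x => Fr.G 2 (Fr.z 2 x)) (fun s => Fr.G 2 (Fr.z' 2 (upw (wF bl J 2) ⌊vs k * J⌋₊ s)))
      (fun l g1 g2 => by
        by_cases g3 : l ≤ 2
        · simp only [if_pos g3]
          exact (hGH k hk).2 l g1 g3
        · obtain rfl : l = 3 := by omega
          simp only [if_neg g3]
          exact ⟨V k, y k, y' k, Q k, hT2 k (by omega), fun _ => rfl, fun _ => rfl⟩)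
      (fun l g1 g2 => by
        by_cases g3 : l ≤ 2
        · simp only [if_pos g3]
          refine (E_inv_floor J (sn l (vs k) - ε₁)).trans ?_
          refine mul_le_mul_of_nonneg_left (E_mono J ?_) (by norm_num)
          linarith
        · obtain rfl : l = 3 := by omega
          simp only [if_neg g3]
          refine (E_inv_floor J (sn 3 (vs k) - z - ez)).trans ?_
          refine mul_le_mul_of_nonneg_left (E_mono J ?_) (by norm_num)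
          rw [hθ]
          linarith)
      ⟨Fr.V 2, Fr.z 2, _, Fr.G 2, hF3 k (by omega) 2, fun _ => rfl, fun _ => rfl⟩
    refine le_trans (Pb_mono25 h0 fun ω _ hb => ?_) k1
    intro hg
    refine hb ?_
    have e1 : upw (wF bl J 2) ⌊vs k * J⌋₊ (slam F ⌊vs k * J⌋₊ ω) = slam F (wF bl J 2) ω :=
      upw_slam F (hwv k (by omega) 2) (hvJ k (by omega)) ω
    have hg' : WinOk F c 3 (vs k) (fun l => sn l (vs k)) (z + 16 * θ) (1 - Λ * q)
        (1 / 2 ^ ⌊(sn 3 (vs k) - z - ez) * J⌋₊) (1 / 2 ^ ⌊(pl 2 - ez) * J⌋₊)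
        (fun l => if l ≤ 2 then HB k (slam F ⌊vs k * J⌋₊ ω) l else
          Q k (y' k (slam F ⌊vs k * J⌋₊ ω)))
        (Fr.G 2 (Fr.z' 2 (upw (wF bl J 2) ⌊vs k * J⌋₊ (slam F ⌊vs k * J⌋₊ ω)))) ω := hg
    rw [e1] at hg'
    exact hg'
  -- the frame at `t`
  have hpl2 : ∀ i : Fin 3, sn (1 + i) t - z ≤ pl i := by
    intro i
    by_cases h : (i : ℕ) < 2
    · exact (hfr i h).2.1
    · have e1 : (i : ℕ) = 2 := by
        have := i.2
        omega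
      rw [e1, hp2]
  have W2 : Pb (Pool.Agent.H49.Ent.cond F.p B₂ True) (fun ω =>
      ¬ ∀ i : Fin 3, ∀ o : Option (Fin m),
        |coeff (Finsupp.single o 1) (Fr.G i (Fr.z' i (slam F (wF bl J i) ω)))| ≤
          2 ^ ((1 - Λ * q - sn (1 + i) t + (z + 16 * θ)) * J)) ≤ η := by
    have hw0 := hwin 0 (by omega)
    have hvJ0 := hvJ 0 (Nat.zero_le _)
    have hwv0 := hwv 0 (Nat.zero_le _)
    have hF30 := hF3 0 (Nat.zero_le _)
    rw [hv0] at hw0 hvJ0 hwv0 hF30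
    have k1 := hw0 (fun l => ⌊(pl (l - 1) - ez) * J⌋₊) (frG Fr)
      (fun s l => frH Fr (upw ⌊bl (l - 1) * J⌋₊ ⌊t * J⌋₊ s) l) ⌊(pl 2 - ez) * J⌋₊
      (fun x => Fr.G 2 (Fr.z 2 x)) (fun s => Fr.G 2 (Fr.z' 2 (upw (wF bl J 2) ⌊t * J⌋₊ s)))
      (fun l g1 g2 => by
        obtain ⟨i, hi⟩ : ∃ i : Fin 3, 1 + (i : ℕ) = l := ⟨⟨l - 1, by omega⟩, by
          show 1 + (l - 1) = l
          omega⟩
        subst hi
        have e1 : 1 + (i : ℕ) - 1 = i := by omega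
        rw [e1]
        exact ⟨Fr.V i, Fr.z i, _, Fr.G i, hF30 i, fun x => frG_in Fr x i,
          fun s => frH_in Fr _ i⟩)
      (fun l g1 g2 => by
        obtain ⟨i, hi⟩ : ∃ i : Fin 3, 1 + (i : ℕ) = l := ⟨⟨l - 1, by omega⟩, by
          show 1 + (l - 1) = l
          omega⟩
        subst hi
        have e1 : 1 + (i : ℕ) - 1 = i := by omega
        rw [e1]
        refine (E_inv_floor J (pl i - ez)).trans ?_
        refine mul_le_mul_of_nonneg_left (E_mono J ?_) (by norm_num)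
        have := hpl2 i
        rw [hθ]
        linarith)
      ⟨Fr.V 2, Fr.z 2, _, Fr.G 2, hF30 2, fun _ => rfl, fun _ => rfl⟩
    refine le_trans (Pb_mono25 h0 fun ω _ hb => ?_) k1
    intro hg
    refine hb fun i o => ?_
    have g1 := hg.1 (1 + i) (by omega) (by have := i.2; omega) o
    have e1 : 1 + (i : ℕ) - 1 = i := by omega
    have g2 : frH Fr (upw ⌊bl (1 + (i : ℕ) - 1) * J⌋₊ ⌊t * J⌋₊ (slam F ⌊t * J⌋₊ ω)) (1 + i) =
        Fr.G i (Fr.z' i (slam F (wF bl J i) ω)) := by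
      rw [frH_in, e1]
      have e2 : upw (wF bl J i) ⌊t * J⌋₊ (slam F ⌊t * J⌋₊ ω) = slam F (wF bl J i) ω :=
        upw_slam F (hwv0 i) hvJ0 ω
      exact congrArg (fun s => Fr.G i (Fr.z' i s)) e2
    have g3 : |coeff (Finsupp.single o 1) (frH Fr (upw ⌊bl (1 + (i : ℕ) - 1) * J⌋₊ ⌊t * J⌋₊
        (slam F ⌊t * J⌋₊ ω)) (1 + i))| ≤ 2 ^ ((1 - Λ * q - sn (1 + i) t + (z + 16 * θ)) * J) := g1
    rw [g2] at g3
    exact g3
  have W3 : ∀ l < 4, Pb (Pool.Agent.H49.Ent.cond F.p B₂ True) (fun ω => ∃ i : Fin 3,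
      l = 1 + (i : ℕ) ∧
      ¬ |ojet F (c (1 + i)) 1 (Fr.G i (Fr.z' i (slam F (wF bl J i) ω))) ω| ≤ 2 ^ (2 * J)) ≤ η := by
    intro l hl4
    have hvJ0 := hvJ 0 (Nat.zero_le _)
    have hwv0 := hwv 0 (Nat.zero_le _)
    have hF30 := hF3 0 (Nat.zero_le _)
    rw [hv0] at hvJ0 hwv0 hF30
    by_cases h : ∃ i : Fin 3, l = 1 + (i : ℕ)
    · obtain ⟨i, rfl⟩ := h
      have k1 := hown (1 + i) hl4 ⌊(pl i - ez) * J⌋₊ _ _ _ _ (hF30 i)
      refine le_trans (Pb_mono25 h0 fun ω _ hb => ?_) k1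
      intro hg
      obtain ⟨i', hi', hb'⟩ := hb
      obtain rfl : i = i' := Fin.ext (by omega)
      refine hb' ?_
      have e2 : upw (wF bl J i) ⌊t * J⌋₊ (slam F ⌊t * J⌋₊ ω) = slam F (wF bl J i) ω :=
        upw_slam F (hwv0 i) hvJ0 ω
      rw [e2] at hg
      refine hg.trans ?_
      have e3 : (2 : ℝ) ^ ((1 / 2 + ((1 : ℕ) : ℝ) * t) * J) ≤ 2 ^ (2 * J) := by
        rw [← Real.rpow_natCast]
        refine Real.rpow_le_rpow_of_exponent_le (by norm_num) ?_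
        push_cast
        exact mul_le_mul_of_nonneg_right (by linarith) hJ0
      have e4 : (1 : ℝ) / 2 ^ ⌊(pl i - ez) * J⌋₊ ≤ 1 := by
        rw [div_le_one (by positivity)]
        exact one_le_pow₀ (by norm_num)
      calc _ ≤ (2 : ℝ) ^ ((1 / 2 + ((1 : ℕ) : ℝ) * t) * J) * 1 :=
            mul_le_mul_of_nonneg_left e4 (E_pos J _).le
        _ ≤ _ := by rw [mul_one]; exact e3
    · refine le_trans (Pb_mono25 h0 (B := fun _ => False) fun ω _ hb => h ⟨hb.choose,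
        hb.choose_spec.1⟩) (le_of_eq_of_le ?_ hη0.le)
      unfold Pb
      simp
  -- the good points
  have q1 := Pb_ex25 h0 (fun k ω =>
      ¬ WinOk F c 3 (vs k) (fun l => sn l (vs k)) (z + 16 * θ) (1 - Λ * q)
        (1 / 2 ^ ⌊(sn 3 (vs k) - z - ez) * J⌋₊) (1 / 2 ^ ⌊(pl 2 - ez) * J⌋₊)
        (fun l => if l ≤ 2 then HB k (slam F ⌊vs k * J⌋₊ ω) l else
          Q k (y' k (slam F ⌊vs k * J⌋₊ ω)))
        (Fr.G 2 (Fr.z' 2 (slam F (wF bl J 2) ω))) ω) (n + 1) W1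
  have q3 := Pb_ex25 h0 (fun l ω => ∃ i : Fin 3, l = 1 + (i : ℕ) ∧
      ¬ |ojet F (c (1 + i)) 1 (Fr.G i (Fr.z' i (slam F (wF bl J i) ω))) ω| ≤ 2 ^ (2 * J)) 4 W3
  have tot := (Pb_or25 h0 _ _).trans (add_le_add q1 ((Pb_or25 h0 _ _).trans (add_le_add W2 q3)))
  have e6 : ((n + 1 : ℕ) : ℝ) = n + 1 := by push_cast; ring
  have e7 : ((4 : ℕ) : ℝ) = 4 := by norm_num
  rw [e6, e7] at tot
  have hmass := pe_big (η := 1 / 2) hB₂0 (tot.trans (by linarith))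
  refine ⟨_, Fr, fun ω h => hB₂A ω h.1, le_trans ?_ hmass, ?_⟩
  · linarith
  -- the numbers
  have lv3 : ∀ k ≤ n, sn 3 t - φ' ≤ sn 3 (vs k) := by
    intro k hk
    have k1 := Bx.lint (vs k) (hvs k hk).1 (hbt.trans (hvs k hk).2.1)
      ((hvs k hk).2.2.trans hto)
    have k2 : 0 ≤ σ * (vs k - t) := mul_nonneg (by linarith) (by linarith [(hvs k hk).2.1])
    rw [abs_le] at k1
    linarith [k1.1]
  have lv0 : ∀ k ≤ n, sn 0 t - 2 * φ' ≤ sn 0 (vs k) := by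
    intro k hk
    have k1 := Bx.lad.fl 0 (by norm_num) (vs k) (hvs k hk).1 (hbt.trans (hvs k hk).2.1)
      ((hvs k hk).2.2.trans hto)
    have k2 := Bx.lad.fl 0 (by norm_num) t Bx.wG hbt (by linarith)
    rw [abs_le] at k1 k2
    linarith [k1.1, k2.2, (hvs k hk).2.1]
  have lv12 : ∀ k ≤ n, (sn 2 (vs k) - sn 2 t) - (sn 1 (vs k) - sn 1 t) ≤ φ' := by
    intro k hk
    have k1 := Bx.lad.eq 2 (by norm_num) (by norm_num) t Bx.wG (vs k) (hvs k hk).1 hbt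
      (hvs k hk).2.1 ((hvs k hk).2.2.trans hto)
    exact (abs_le.1 k1).2
  have hCz : z + 16 * θ + 4 * z ≤ (310 + 100 * s) * z := by
    rw [hθ]
    linarith
  have hθz : θ ≤ z + 16 * θ := by linarith
  refine ⟨⟨fun i => ?_, fun ω hω i => ?_⟩, fun ω hω i o => ?_, fun k hk => ?_⟩
  · refine ((hFl i).sub fun ω h => hB₂ ω h.1).mono (Finset.Subset.refl _) le_rfl ?_
    exact Nat.floor_le_floor (mul_le_mul_of_nonneg_right (by linarith) hJ0)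
  · by_contra hcon
    exact hω.2 (Or.inr (Or.inr ⟨1 + (i : ℕ), by have := i.2; omega, i, rfl, hcon⟩))
  · have k1 : ∀ i : Fin 3, ∀ o : Option (Fin m),
        |coeff (Finsupp.single o 1) (Fr.G i (Fr.z' i (slam F (wF bl J i) ω)))| ≤
          2 ^ ((1 - Λ * q - sn (1 + i) t + (z + 16 * θ)) * J) := by
      by_contra hcon
      exact hω.2 (Or.inr (Or.inl hcon))
    exact (k1 i o).trans (E_mono J (by linarith))
  · have hk' : k < n + 1 := by omega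
    have hvk := hvs k hk
    refine nat_of (ε₁ := ε₁) (ε₂ := z + 16 * θ) (q := 1 / 2 ^ ⌊(sn 3 (vs k) - z - ez) * J⌋₊)
      (q' := 1 / 2 ^ ⌊(pl 2 - ez) * J⌋₊) (w := wF bl J) (P := fun i => ⌊(pl i - ez) * J⌋₊)
      Bx.lad.inj ⟨fun i => (hFl i).sub fun ω h => hB₂ ω h.1, fun ω hω i => ?_⟩ (hwv k hk) (hvJ k hk)
      ((hGH k hk').1.sub fun ω h => h.1) ((hT2 k hk).sub fun ω h => h.1)
      (fun ω hω l hl' => ?_) ((hl k hk').l0.sub fun ω h => h.1) (fun ω hω => ?_)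
      (by linarith) (by linarith) ?_ ?_ ?_ ?_ ?_
    · by_contra hcon
      exact hω.2 (Or.inr (Or.inr ⟨1 + (i : ℕ), by have := i.2; omega, i, rfl, hcon⟩))
    · rw [hF2]
      exact hQc k hk ω (hB₂ ω hω.1) l hl'
    · by_contra hcon
      exact hω.2 (Or.inl ⟨k, hk', hcon⟩)
    · -- the precision of the target
      refine (E_inv_floor J (sn 3 (vs k) - z - ez)).trans ?_
      have e1 : (2 : ℝ) * 2 ^ (-(sn 3 (vs k) - z - ez) * J) ≤
          2 ^ (z * J) * 2 ^ (-(sn 3 (vs k) - z - ez) * J) :=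
        mul_le_mul_of_nonneg_right (by linarith) (E_pos J _).le
      refine e1.trans ?_
      rw [E_add]
      exact E_mono J (by linarith)
    · refine (E_inv_floor J (sn 0 (vs k) - ε₁)).trans ?_
      have e1 : (2 : ℝ) * 2 ^ (-(sn 0 (vs k) - ε₁) * J) ≤
          2 ^ (z * J) * 2 ^ (-(sn 0 (vs k) - ε₁) * J) :=
        mul_le_mul_of_nonneg_right (by linarith) (E_pos J _).le
      refine e1.trans ?_
      rw [E_add]
      exact E_mono J (by linarith)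
    · -- the slope of the target
      have k1 := E_inv_floor J (sn 3 (vs k) - z - ez)
      have k2 := E_inv_floor J (pl 2 - ez)
      have k3 : (2 : ℝ) ^ (-(sn 3 (vs k) - z - ez) * J) ≤ 2 ^ ((3 * z - sn 3 t) * J) :=
        E_mono J (by linarith [lv3 k hk])
      have k4 : (2 : ℝ) ^ (-(pl 2 - ez) * J) ≤ 2 ^ ((3 * z - sn 3 t) * J) :=
        E_mono J (by
          rw [hp2]
          linarith)
      have k5 : (1 : ℝ) / 2 ^ ⌊(sn 3 (vs k) - z - ez) * J⌋₊ + 1 / 2 ^ ⌊(pl 2 - ez) * J⌋₊ ≤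
          4 * 2 ^ ((3 * z - sn 3 t) * J) := by linarith
      have k6 : (4 : ℝ) * 2 ^ ((3 * z - sn 3 t) * J) ≤ 2 ^ ((z + (3 * z - sn 3 t)) * J) := by
        rw [← E_add]
        exact mul_le_mul_of_nonneg_right f4 (E_pos J _).le
      refine (mul_le_mul_of_nonneg_left (k5.trans k6) (E_pos J _).le).trans ?_
      rw [E_add]
      exact E_mono J (by linarith)
    · linarith [lv12 k hk]
    · linarith [lv0 k hk]

end Pool.T4J
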