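import Pool.Agent.H4.T4.Lbw

/-!
# Affine labels along a chain of windows, with their precisions

`lab_clsQ`: `lab_cls` which also gives the labels of all windows as closed labels of given precisions.
`LbwQ`, `lbwQ_one`, `lbwQ_ex`: the same at finitely many windows.
-/

set_option autoImplicit false

namespace Pool.T4J

open Finset Real MvPolynomial
open Pool.Agent.H49.Ent Pool.Agent.H32.Dense Pool.STK Pool.KA Pool.KSAT Pool.K2S Pool.PB Pool.S6C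
open Pool.GEN Pool.CHT Pool.CHX Pool.ISO
open Pool.D2R Pool.GF64
open Pool.D2F2 (hgp vlp ojet_hgp ojet_vlp)
open Pool.RCD Pool.LA91
open Pool.GRD (LbP)
open Pool.BFL (Pb)
open Pool.LIV (Pb_mono25 Pb_or25 Pb_ex25)
open Pool.GRW (tmc_bas)
open Pool.AVG57 (upw upw_slam)
open Pool.CDX (AffL)

variable {m : ℕ}

/-- **Affine labels along a chain of windows.** `z`: the windows; `bl r l`, `pl r l`: the window and the
precision of the label of the place `l` for the window `z r`; `θ`: the defect of the precisions; `Y`: the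
steps of the levels. The labels of the window `z 0` are given. -/
theorem lab_clsQ {S : PCl m} {C₀ : ℝ} (htm : TmC S C₀) {c : ℕ → Fin m} {d n : ℕ}
    {sn : ℕ → ℝ → ℝ} {G : Set ℝ} (hch : ChG S c d sn G) (hnd : n ≤ d)
    (hinj : Set.InjOn c (Set.Iio (n + 1))) {R : ℕ} {z : ℕ → ℝ}
    (hz : ∀ r ≤ R, z r ∈ G) (hzm : ∀ r < R, z r ≤ z (r + 1)) {bl pl : ℕ → ℕ → ℝ}
    (hbl : ∀ r ≤ R, ∀ l, 1 ≤ l → l ≤ n → bl r l ≤ z r)
    (hL : ∀ r, 1 ≤ r → r ≤ R → ∀ l, 1 ≤ l → l ≤ n →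
      AffL S ((range l).image c) (c l) (bl r l) (pl r l))
    {θ Y : ℝ} (hθ : 0 ≤ θ) (hY0 : 0 ≤ Y)
    (hpl : ∀ r ≤ R, ∀ l, 1 ≤ l → l ≤ n → sn l (z r) - θ ≤ pl r l)
    (hY : ∀ r < R, ∀ q, r ≤ q → q ≤ r + 1 → ∀ i, 1 ≤ i → i ≤ n → ∀ l < i,
      sn l (z (r + 1)) - sn i (z q) ≤ sn l (z 0) - sn i (z 0) + Y)
    {ε : ℝ} (hε : 0 < ε) {η : ℝ} (hη : 0 < η) :
    ∃ e₀ : ℝ, 0 < e₀ ∧ Bas S (fun J F A => ∀ (GA : PtT F → ℕ → MvPolynomial (Option (Fin m)) ℝ)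
      (HA : LnT F → ℕ → MvPolynomial (Option (Fin m)) ℝ),
      (∀ l, 1 ≤ l → l ≤ n → LbQ F c l ⌊bl 0 l * J⌋₊ ⌊(pl 0 l - e₀) * J⌋₊ A (fun y => GA y l)
        (fun s => HA s l)) →
      ∃ (B : F.Ω → Prop) (GB : ℕ → PtT F → ℕ → MvPolynomial (Option (Fin m)) ℝ)
        (HB : ℕ → LnT F → ℕ → MvPolynomial (Option (Fin m)) ℝ), Sub B A ∧
        (1 - η) * Pe F.p A ≤ Pe F.p B ∧ GB 0 = GA ∧
        (∀ s l, HB 0 s l = HA (upw ⌊bl 0 l * J⌋₊ ⌊z 0 * J⌋₊ s) l) ∧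
        ∀ r ≤ R, LbN F c n B (z r) (fun l => sn l (z 0)) (fun l => sn l (z r))
          (ε + n * ((n + 1) * θ + Y)) GA (GB r) (HB r) ∧ ∀ l, 1 ≤ l → l ≤ n →
          LbQ F c l ⌊z r * J⌋₊ ⌊(sn l (z r) - (ε + n * ((n + 1) * θ + Y))) * J⌋₊ B
            (fun y => GB r y l) (fun s => HB r s l)) := by
  classical
  have hn0 : (0 : ℝ) ≤ n := Nat.cast_nonneg n
  have hR0 : (0 : ℝ) ≤ R := Nat.cast_nonneg R
  rcases Nat.eq_zero_or_pos n with hn | hn1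
  · -- no places
    subst hn
    refine ⟨1, one_pos, Bas.mono 0 (tmc_bas htm one_pos) ?_⟩
    rintro J - F A ⟨hA, -⟩ GA HA -
    refine ⟨A, fun _ => GA, fun _ s l => HA (upw ⌊bl 0 l * J⌋₊ ⌊z 0 * J⌋₊ s) l, fun _ h => h, ?_,
      rfl, fun _ _ => rfl, fun r _ => ⟨⟨?_, ?_, ?_, ?_, ?_, ?_⟩, fun l a b => by omega⟩⟩
    · have := mul_nonneg hη.le hA.le
      linarith
    · exact fun _ l a b => by omega
    · exact fun _ l a b => by omega
    · exact fun _ _ l a b => by omega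
    · exact fun _ _ l a b => by omega
    · exact fun _ _ l a b => by omega
    · exact fun _ _ l a b => by omega
  obtain ⟨ε₁, hε₁⟩ : ∃ ε₁ : ℝ, ε₁ = ε / (4 * ((n + 1) * (n + 2))) := ⟨_, rfl⟩
  have hε10 : 0 < ε₁ := by rw [hε₁]; positivity
  have hε11 : ((n : ℝ) + 1) * (n + 2) * ε₁ = ε / 4 := by
    rw [hε₁]
    field_simp
  have hε12 : ε₁ ≤ ε / 4 := by
    have h1 : (0 : ℝ) ≤ ((n : ℝ) * n + 3 * n + 1) * ε₁ := by positivity
    have h2 : ((n : ℝ) + 1) * (n + 2) * ε₁ = ε₁ + (n * n + 3 * n + 1) * ε₁ := by ring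
    linarith
  have hz1 : ∀ r ≤ R, 0 ≤ z r ∧ z r < 1 := fun r hr => by
    obtain ⟨u₁, rd, -, h⟩ := hch.ch _ (hz r hr)
    exact ⟨h.w0, h.u0⟩
  -- the masses
  obtain ⟨NB, hNB⟩ : ∃ NB : ℝ, NB = R * (n + 1) + (R + 1) * ((n + 1) * 2) := ⟨_, rfl⟩
  have hNB0 : 0 < NB := by rw [hNB]; positivity
  obtain ⟨η', hη'⟩ : ∃ η' : ℝ, η' = η / NB := ⟨_, rfl⟩
  have hη0 : 0 < η' := by rw [hη']; positivity
  have hη1 : NB * η' = η := by
    rw [hη']
    field_simp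
  obtain ⟨J₁, hJ₁⟩ := E_big (a := ε / 4) (C := (1 + 4 * (R : ℝ)) ^ n) (by linarith)
  obtain ⟨J₂, hJ₂⟩ := E_big (a := ε / 4) (C := 2) (by linarith)
  -- the bases
  have b1 : Bas S (fun J F A => ∀ r < R, ∀ i < n + 1, 1 ≤ i →
      DdP F c i (z (r + 1)) (θ + ε₁) ε₁ (fun l => sn l (z (r + 1))) η' A) := by
    refine Bas.all R fun r hr => Bas.all (n + 1) fun i hi => ?_
    by_cases hi1 : 1 ≤ i
    · obtain ⟨u₁, rd, -, h⟩ := hch.ch _ (hz (r + 1) (by omega))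
      refine Bas.mono 0 (dd_cls htm (h.take (Nat.zero_le i) (by omega)) hi1
        (show 0 ≤ θ + ε₁ by linarith) hε10 1 hη0) ?_
      exact fun J _ F A h _ => h
    · exact ⟨1, one_pos, 0, fun _ _ _ _ _ h => absurd h hi1⟩
  have b2 : Bas S (fun J F A => ∀ r < R + 1, ∀ l < n + 1, ∀ j < 2, OwP F c l j (z r) ε₁ η' A) :=
    Bas.all _ fun r hr => Bas.all _ fun l _ => Bas.all 2 fun j _ =>
      own_cls htm ((range l).image c) (c l) j 1 (hz1 r (by omega)).1 (hz1 r (by omega)).2 hη0 hε10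
  have b3 : Bas S (fun J F A => ∀ r < R + 1, ∀ l < n + 1, 1 ≤ r → 1 ≤ l → ∃ (V : Type)
      (y : PtT F → V) (y' : LnT F → V) (T : V → MvPolynomial (Option (Fin m)) ℝ),
      LbP F ((range l).image c) (c l) 1 J ⌊bl r l * J⌋₊ ⌊(pl r l - ε₁) * J⌋₊ A y y' T) := by
    refine Bas.all _ fun r hr => Bas.all _ fun l hl => ?_
    by_cases h1 : 1 ≤ r ∧ 1 ≤ l
    · refine Bas.mono 0 (hL r h1.1 (by omega) l h1.2 (by omega) ε₁ hε10) ?_
      exact fun J _ F A h _ _ => h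
    · exact ⟨1, one_pos, 0, fun _ _ _ _ _ a b => absurd ⟨a, b⟩ h1⟩
  refine ⟨ε₁, hε10, Bas.mono (J₁ + J₂ + 1) ((b1.and (b2.and b3)).and (tmc_bas htm one_pos)) ?_⟩
  rintro J hJ F A ⟨⟨hdd, how, hlab⟩, hA, -⟩ GA HA hGA
  have hJ0 : (0 : ℝ) ≤ J := Nat.cast_nonneg J
  have f1 := hJ₁ J (by omega)
  have f2 := hJ₂ J (by omega)
  have hq := isLaw_cond F.isLaw hA
  have h0 := hq.nonneg
  -- the labels
  have hex : ∀ r l : ℕ, ∃ (V : Type) (y : PtT F → V) (y' : LnT F → V)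
      (T : V → MvPolynomial (Option (Fin m)) ℝ), (r ≤ R → 1 ≤ l → l ≤ n →
      LbP F ((range l).image c) (c l) 1 J ⌊bl r l * J⌋₊ ⌊(pl r l - ε₁) * J⌋₊ A y y' T) ∧
      (r = 0 → 1 ≤ l → l ≤ n → (∀ x, GA x l = T (y x)) ∧ ∀ s, HA s l = T (y' s)) := by
    intro r l
    by_cases h : r ≤ R ∧ 1 ≤ l ∧ l ≤ n
    · rcases Nat.eq_zero_or_pos r with h1 | h1
      · subst h1
        obtain ⟨V, y, y', T, k1, k2, k3⟩ := hGA l h.2.1 h.2.2
        exact ⟨V, y, y', T, fun _ _ _ => k1, fun _ _ _ => ⟨k2, k3⟩⟩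
      · obtain ⟨V, y, y', T, k1⟩ := hlab r (by omega) l (by omega) h1 h.2.1
        exact ⟨V, y, y', T, fun _ _ _ => k1, fun h2 => by omega⟩
    · by_cases h1 : 1 ≤ l ∧ l ≤ n
      · exact ⟨Unit, fun _ => (), fun _ => (), fun _ => 0, fun a b c => absurd ⟨a, b, c⟩ h,
          fun a => by omega⟩
      · exact ⟨Unit, fun _ => (), fun _ => (), fun _ => 0, fun a b c => absurd ⟨b, c⟩ h1,
          fun a b c => absurd ⟨b, c⟩ h1⟩
  choose V y y' T hT hT0 using hex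
  have hfz : ∀ r ≤ R, ⌊z r * (J : ℝ)⌋₊ ≤ J := fun r hr => floor_le (hz1 r hr).2.le J
  have hzq : ∀ r q, r ≤ q → q ≤ R → z r ≤ z q := by
    intro r q h
    induction q, h using Nat.le_induction with
    | base => exact fun _ => le_rfl
    | succ q _ ih => exact fun h' => (ih (by omega)).trans (hzm q (by omega))
  have hbz : ∀ r q, r ≤ q → q ≤ R → ∀ l, 1 ≤ l → l ≤ n → ⌊bl r l * (J : ℝ)⌋₊ ≤ ⌊z q * J⌋₊ :=
    fun r q a b l h1 h2 => Nat.floor_le_floor (mul_le_mul_of_nonneg_right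
      ((hbl r (by omega) l h1 h2).trans (hzq r q a b)) hJ0)
  -- the labels at the windows of the chain
  have hTw : ∀ r q, r ≤ q → q ≤ R → ∀ l, 1 ≤ l → l ≤ n →
      LbP F ((range l).image c) (c l) 1 J ⌊z q * J⌋₊ ⌊(pl r l - ε₁) * J⌋₊ A (y r l)
        (fun s => y' r l (upw ⌊bl r l * J⌋₊ ⌊z q * J⌋₊ s)) (T r l) := fun r q a b l h1 h2 =>
    (hT r l (by omega) h1 h2).win (hbz r q a b l h1 h2) (hfz q b)
  have hsl : ∀ r q, r ≤ q → q ≤ R → ∀ l, 1 ≤ l → l ≤ n → ∀ ω,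
      y' r l (upw ⌊bl r l * J⌋₊ ⌊z q * J⌋₊ (slam F ⌊z q * J⌋₊ ω)) =
        y' r l (slam F ⌊bl r l * J⌋₊ ω) := fun r q a b l h1 h2 ω => by
    rw [upw_slam F (hbz r q a b l h1 h2) (hfz q b)]
  -- the bad events
  obtain ⟨Lω, hLω⟩ : ∃ Lω : F.Ω → ℕ → ℕ → MvPolynomial (Option (Fin m)) ℝ,
    Lω = fun ω r l => T r l (y' r l (slam F ⌊bl r l * J⌋₊ ω)) := ⟨_, rfl⟩
  have hLe : ∀ ω r l, T r l (y' r l (slam F ⌊bl r l * J⌋₊ ω)) = Lω ω r l := fun ω r l => by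
    rw [hLω]
  obtain ⟨bad1, hbad1⟩ : ∃ bad1 : ℕ → ℕ → F.Ω → Prop, bad1 = fun r i ω => 1 ≤ i ∧
    ¬ ∀ W : Option (Fin m) → ℝ, W none = 0 →
        |dd (Lω ω (r + 1) i - Lω ω r i) (bt F ω) W| ≤
          2 ^ ((ε₁ + i * (θ + ε₁)) * J) * (1 / 2 ^ ⌊(pl (r + 1) i - ε₁) * J⌋₊ +
            1 / 2 ^ ⌊(pl r i - ε₁) * J⌋₊) *
            ∑ l ∈ range i, 2 ^ (sn l (z (r + 1)) * J) *
              |cmp c (Lω ω (r + 1)) (bt F ω) W l| := ⟨_, rfl⟩
  obtain ⟨bad2, hbad2⟩ : ∃ bad2 : ℕ → ℕ → ℕ → F.Ω → Prop, bad2 = fun r l j ω => 1 ≤ l ∧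
    ¬ |ojet F (c l) j (Lω ω r l) ω| ≤ 2 ^ ((ε₁ + j * z r) * J) *
      (1 / 2 ^ ⌊(pl r l - ε₁) * J⌋₊) := ⟨_, rfl⟩
  have hfalse : ∀ E : F.Ω → Prop, (∀ ω, ¬ E ω) →
      Pb (Pool.Agent.H49.Ent.cond F.p A True) E ≤ η' := by
    intro E hE
    refine le_trans (Pb_mono25 h0 (B := fun _ => False) fun ω hω hb => hE ω hb)
      (le_of_eq_of_le ?_ hη0.le)
    unfold Pb
    simp
  have hP1 : ∀ r < R, ∀ i < n + 1, Pb (Pool.Agent.H49.Ent.cond F.p A True) (bad1 r i) ≤ η' := by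
    intro r hr i hi
    by_cases hi1 : 1 ≤ i
    · have k1 := hdd r hr i hi hi1 (c i) ⌊(pl (r + 1) i - ε₁) * J⌋₊ ⌊(pl r i - ε₁) * J⌋₊
        (fun l => ⌊(pl (r + 1) l - ε₁) * J⌋₊) (fun l => V (r + 1) l) _ _
        (fun l => y (r + 1) l) (fun l s => y' (r + 1) l (upw ⌊bl (r + 1) l * J⌋₊
          ⌊z (r + 1) * J⌋₊ s)) (fun l => T (r + 1) l) _ _ _ _ _ _
        (fun l h1 h2 => hTw (r + 1) (r + 1) le_rfl (by omega) l h1 (by omega))
        (fun l h1 h2 => prec_le (by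
          have := hpl (r + 1) (by omega) l h1 (by omega)
          linarith))
        (hTw (r + 1) (r + 1) le_rfl (by omega) i hi1 (by omega))
        (hTw r (r + 1) (Nat.le_succ r) (by omega) i hi1 (by omega))
      refine le_trans (Pb_mono25 h0 fun ω hω hb => ?_) k1
      rw [hbad1] at hb
      intro hall
      refine hb.2 fun W hW => ?_
      have k2 := hall W hW
      rw [hsl (r + 1) (r + 1) le_rfl (by omega) i hi1 (by omega),
        hsl r (r + 1) (Nat.le_succ r) (by omega) i hi1 (by omega), hLe, hLe] at k2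
      refine k2.trans (le_of_eq ?_)
      congr 1
      refine Finset.sum_congr rfl fun l hl => ?_
      have hli := Finset.mem_range.1 hl
      congr 2
      unfold cmp
      split_ifs with h1
      · rfl
      · show W (some (c l)) - dd (T (r + 1) l (y' (r + 1) l (upw ⌊bl (r + 1) l * J⌋₊
          ⌊z (r + 1) * J⌋₊ (slam F ⌊z (r + 1) * J⌋₊ ω)))) (bt F ω) W = _
        rw [hsl (r + 1) (r + 1) le_rfl (by omega) l (by omega) (by omega), hLe]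
    · refine hfalse _ fun ω hb => ?_
      rw [hbad1] at hb
      exact hi1 hb.1
  have hP2 : ∀ r < R + 1, ∀ l < n + 1, ∀ j < 2,
      Pb (Pool.Agent.H49.Ent.cond F.p A True) (bad2 r l j) ≤ η' := by
    intro r hr l hl j hj
    by_cases hl1 : 1 ≤ l
    · have k1 := how r hr l hl j hj _ _ _ _ _ (hTw r r le_rfl (by omega) l hl1 (by omega))
      refine le_trans (Pb_mono25 h0 fun ω hω hb => ?_) k1
      rw [hbad2] at hb
      intro hall
      refine hb.2 ?_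
      rw [hsl r r le_rfl (by omega) l hl1 (by omega), hLe] at hall
      exact hall
    · refine hfalse _ fun ω hb => ?_
      rw [hbad2] at hb
      exact hl1 hb.1
  obtain ⟨Bad, hBad⟩ : ∃ Bad : F.Ω → Prop, Bad = fun ω => (∃ r < R, ∃ i < n + 1, bad1 r i ω) ∨
    ∃ r < R + 1, ∃ l < n + 1, ∃ j < 2, bad2 r l j ω := ⟨_, rfl⟩
  have hPB : Pb (Pool.Agent.H49.Ent.cond F.p A True) Bad ≤ η := by
    rw [hBad]
    have c1 : Pb (Pool.Agent.H49.Ent.cond F.p A True) (fun ω => ∃ r < R, ∃ i < n + 1, bad1 r i ω) ≤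
        R * (((n + 1 : ℕ) : ℝ) * η') :=
      Pb_ex25 h0 (fun r ω => ∃ i < n + 1, bad1 r i ω) R fun r hr =>
        Pb_ex25 h0 (fun i ω => bad1 r i ω) (n + 1) fun i hi => hP1 r hr i hi
    have c2 : Pb (Pool.Agent.H49.Ent.cond F.p A True)
        (fun ω => ∃ r < R + 1, ∃ l < n + 1, ∃ j < 2, bad2 r l j ω) ≤
        ((R + 1 : ℕ) : ℝ) * (((n + 1 : ℕ) : ℝ) * (((2 : ℕ) : ℝ) * η')) :=
      Pb_ex25 h0 (fun r ω => ∃ l < n + 1, ∃ j < 2, bad2 r l j ω) (R + 1) fun r hr =>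
        Pb_ex25 h0 (fun l ω => ∃ j < 2, bad2 r l j ω) (n + 1) fun l hl =>
          Pb_ex25 h0 (fun j ω => bad2 r l j ω) 2 fun j hj => hP2 r hr l hl j hj
    refine (Pb_or25 h0 _ _).trans ?_
    push_cast at c1 c2
    have c3 : (R : ℝ) * ((n + 1) * η') + (R + 1) * ((n + 1) * (2 * η')) = NB * η' := by
      rw [hNB]
      ring
    linarith
  -- the good points
  have hmass := pe_big hA hPB
  -- the labels of the windows
  obtain ⟨GB, hGBd⟩ : ∃ GB : ℕ → PtT F → ℕ → MvPolynomial (Option (Fin m)) ℝ,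
    GB = fun r => if r = 0 then GA else fun x l => T r l (y r l x) := ⟨_, rfl⟩
  obtain ⟨HB, hHBd⟩ : ∃ HB : ℕ → LnT F → ℕ → MvPolynomial (Option (Fin m)) ℝ,
    HB = fun r => if r = 0 then (fun s l => HA (upw ⌊bl 0 l * J⌋₊ ⌊z 0 * J⌋₊ s) l) else
      fun s l => T r l (y' r l (upw ⌊bl r l * J⌋₊ ⌊z r * J⌋₊ s)) := ⟨_, rfl⟩
  have hGB : ∀ r x l, 1 ≤ l → l ≤ n → GB r x l = T r l (y r l x) := by
    intro r x l h1 h2
    rw [hGBd]
    show (if r = 0 then GA else fun x l => T r l (y r l x)) x l = _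
    by_cases hr : r = 0
    · subst hr
      rw [if_pos rfl]
      exact (hT0 0 l rfl h1 h2).1 x
    · rw [if_neg hr]
  have hHB : ∀ r s l, 1 ≤ l → l ≤ n →
      HB r s l = T r l (y' r l (upw ⌊bl r l * J⌋₊ ⌊z r * J⌋₊ s)) := by
    intro r s l h1 h2
    rw [hHBd]
    show (if r = 0 then (fun s l => HA (upw ⌊bl 0 l * J⌋₊ ⌊z 0 * J⌋₊ s) l) else
      fun s l => T r l (y' r l (upw ⌊bl r l * J⌋₊ ⌊z r * J⌋₊ s))) s l = _
    by_cases hr : r = 0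
    · subst hr
      rw [if_pos rfl]
      exact (hT0 0 l rfl h1 h2).2 _
    · rw [if_neg hr]
  have hTd : ∀ r ≤ R, ∀ l, 1 ≤ l → l ≤ n → ∀ v, (T r l v).totalDegree ≤ 1 ∧ DepC c l (T r l v) := by
    intro r hr l h1 h2 v
    refine ⟨(hT r l hr h1 h2).deg v, fun b b' e1 e2 => (hT r l hr h1 h2).dep v b b' e1 fun i hi => ?_⟩
    obtain ⟨l', hl', rfl⟩ := mem_image.1 hi
    exact e2 l' (mem_range.1 hl')
  have hGω : ∀ r ≤ R, ∀ ω, A ω → ∀ l, 1 ≤ l → l ≤ n → GB r (ptr F J ω) l = Lω ω r l := by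
    intro r hr ω hω l h1 h2
    rw [hGB r _ l h1 h2, ← hLe]
    rw [(hT r l hr h1 h2).cls ω hω]
  have hGB0 : GB 0 = GA := by
    rw [hGBd]
    exact if_pos rfl
  have hHB0 : ∀ s l, HB 0 s l = HA (upw ⌊bl 0 l * J⌋₊ ⌊z 0 * J⌋₊ s) l := by
    intro s l
    have e1 : HB 0 = fun s l => HA (upw ⌊bl 0 l * J⌋₊ ⌊z 0 * J⌋₊ s) l := by
      rw [hHBd]
      exact if_pos rfl
    rw [e1]
  refine ⟨fun ω => A ω ∧ ¬ Bad ω, GB, HB, fun ω h => h.1, hmass, hGB0, hHB0, fun r hr =>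
    ⟨?_, fun l h1 h2 => ⟨V r l, y r l, fun s => y' r l (upw ⌊bl r l * J⌋₊ ⌊z r * J⌋₊ s), T r l,
      ((hTw r r le_rfl hr l h1 h2).sub fun ω h => h.1).mono (Finset.Subset.refl _) le_rfl
        (Nat.floor_le_floor (mul_le_mul_of_nonneg_right ?_ hJ0)), fun x => hGB r x l h1 h2,
      fun s => hHB r s l h1 h2⟩⟩⟩
  swap
  · have e1 : θ ≤ (n : ℝ) * ((n + 1) * θ + Y) := by
      have e1 : (1 : ℝ) ≤ n := by exact_mod_cast hn1
      have e2 : 1 * ((n + 1) * θ + Y) ≤ (n : ℝ) * ((n + 1) * θ + Y) :=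
        mul_le_mul_of_nonneg_right e1 (by positivity)
      have e3 : (0 : ℝ) ≤ n * θ := by positivity
      linarith
    linarith [hpl r hr l h1 h2]
  have hgood1 : ∀ ω, ¬ Bad ω → ∀ r < R, ∀ i, 1 ≤ i → i ≤ n → ∀ W : Option (Fin m) → ℝ,
      W none = 0 → |dd (Lω ω (r + 1) i - Lω ω r i) (bt F ω) W| ≤
          2 ^ ((ε₁ + i * (θ + ε₁)) * J) * (1 / 2 ^ ⌊(pl (r + 1) i - ε₁) * J⌋₊ +
            1 / 2 ^ ⌊(pl r i - ε₁) * J⌋₊) *
            ∑ l ∈ range i, 2 ^ (sn l (z (r + 1)) * J) *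
              |cmp c (Lω ω (r + 1)) (bt F ω) W l| := by
    intro ω hb r hr i h1 h2
    by_contra h3
    refine hb ?_
    rw [hBad]
    refine Or.inl ⟨r, hr, i, by omega, ?_⟩
    rw [hbad1]
    exact ⟨h1, h3⟩
  have hgood2 : ∀ ω, ¬ Bad ω → ∀ r ≤ R, ∀ l, 1 ≤ l → l ≤ n → ∀ j < 2,
      |ojet F (c l) j (Lω ω r l) ω| ≤ 2 ^ ((ε₁ + j * z r) * J) *
        (1 / 2 ^ ⌊(pl r l - ε₁) * J⌋₊) := by
    intro ω hb r hr l h1 h2 j hj
    by_contra h3
    refine hb ?_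
    rw [hBad]
    refine Or.inr ⟨r, by omega, l, by omega, j, hj, ?_⟩
    rw [hbad2]
    exact ⟨h1, h3⟩
  have hnY : 0 ≤ (n : ℝ) * ((n + 1) * θ + Y) := by positivity
  have hnθ : θ ≤ (n : ℝ) * ((n + 1) * θ + Y) := by
    have e1 : (1 : ℝ) ≤ n := by exact_mod_cast hn1
    have e2 : 1 * ((n + 1) * θ + Y) ≤ (n : ℝ) * ((n + 1) * θ + Y) :=
      mul_le_mul_of_nonneg_right e1 (by positivity)
    have e3 : (0 : ℝ) ≤ n * θ := by positivity
    linarith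
  have hown : ∀ ω, ¬ Bad ω → ∀ l, 1 ≤ l → l ≤ n → ∀ j < 2, |ojet F (c l) j (Lω ω r l) ω| ≤
      2 ^ ((ε + n * ((n + 1) * θ + Y) + j * z r - sn l (z r)) * J) := by
    intro ω hb l h1 h2 j hj
    refine (hgood2 ω hb r hr l h1 h2 j hj).trans ?_
    have e1 := prec_le (J := J) (p := pl r l) (e := ε₁) (x := sn l (z r) - θ - ε₁)
      (by linarith [hpl r hr l h1 h2])
    have e2 := mul_le_mul_of_nonneg_left e1 (E_pos J (ε₁ + j * z r)).le
    refine e2.trans ?_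
    have e3 : (2 : ℝ) ^ ((ε₁ + j * z r) * J) * (2 * 2 ^ (-(sn l (z r) - θ - ε₁) * J)) =
        2 * (2 ^ ((ε₁ + j * z r) * J) * 2 ^ (-(sn l (z r) - θ - ε₁) * J)) := by ring
    rw [e3, E_add]
    have e4 := mul_le_mul_of_nonneg_right f2 (E_pos J (ε₁ + j * z r + -(sn l (z r) - θ - ε₁))).le
    rw [E_add] at e4
    refine e4.trans (E_mono J ?_)
    linarith
  refine ⟨?_, ?_, ?_, ?_, ?_, ?_⟩
  · intro x l h1 h2
    rw [hGB r x l h1 h2]
    exact hTd r hr l h1 h2 _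
  · intro s l h1 h2
    rw [hHB r s l h1 h2]
    exact hTd r hr l h1 h2 _
  · intro ω hω l h1 h2
    rw [hGω r hr ω hω.1 l h1 h2, hHB r _ l h1 h2, hsl r r le_rfl hr l h1 h2, hLe]
  · intro ω hω l h1 h2
    rw [hGω r hr ω hω.1 l h1 h2, ← ojet_hgp]
    refine (hown ω hω.2 l h1 h2 0 (by norm_num)).trans (le_of_eq ?_)
    rw [Nat.cast_zero, zero_mul, add_zero]
  · intro ω hω l h1 h2
    rw [hGω r hr ω hω.1 l h1 h2, ← ojet_vlp]
    refine (hown ω hω.2 l h1 h2 1 (by norm_num)).trans (le_of_eq ?_)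
    rw [Nat.cast_one, one_mul]
  · -- the relative gradients
    intro ω hω i h1 h2 j hj
    have hfr : frA n (GB r (ptr F J ω)) = frA n (Lω ω r) := by
      funext l
      unfold frA
      split_ifs with h3
      · exact hGω r hr ω hω.1 l h3.1 h3.2
      · rfl
    have hGA0 : GA (ptr F J ω) i = Lω ω 0 i := by
      have e1 := hGω 0 (Nat.zero_le _) ω hω.1 i h1 h2
      rw [hGB0] at e1
      exact e1
    rw [hfr, hGω r hr ω hω.1 i h1 h2, hGA0]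
    obtain ⟨Aa, hAa⟩ : ∃ Aa : ℝ, Aa = 4 * 2 ^ ((ε₁ + n * (θ + ε₁) + (θ + ε₁) + Y) * J) := ⟨_, rfl⟩
    have hE1 := E_one (J := J) (a := ε₁ + n * (θ + ε₁) + (θ + ε₁) + Y) (by positivity)
    have hAa0 : 0 ≤ Aa := by
      rw [hAa]
      linarith
    have hst := stair (c := c) (n := n) (R := r) ?_ (L := Lω ω) ?_
      (w := fun l => 2 ^ (sn l (z 0) * J)) (fun l _ => E_pos J _) hAa0 (x := bt F ω) ?_ h1 h2
      (r := 0) (Nat.zero_le _) hj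
    · refine hst.trans ?_
      have e1 : (2 : ℝ) ^ (sn j (z 0) * J) / 2 ^ (sn i (z 0) * J) =
          2 ^ ((sn j (z 0) - sn i (z 0)) * J) := by
        rw [sub_mul, Real.rpow_sub (by norm_num)]
      rw [e1]
      have e2 : (1 + (r : ℝ) * Aa) ^ n ≤ 2 ^ ((ε + n * ((n + 1) * θ + Y)) * J) := by
        have g1 : 1 + (r : ℝ) * Aa ≤ (1 + 4 * (R : ℝ)) *
            2 ^ ((ε₁ + n * (θ + ε₁) + (θ + ε₁) + Y) * J) := by
          have g2 : (r : ℝ) ≤ R := by exact_mod_cast hr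
          have g3 : (r : ℝ) * Aa ≤ R * Aa := mul_le_mul_of_nonneg_right g2 hAa0
          rw [add_mul, one_mul]
          have g4 : 4 * (R : ℝ) * 2 ^ ((ε₁ + n * (θ + ε₁) + (θ + ε₁) + Y) * J) = R * Aa := by
            rw [hAa]
            ring
          rw [g4]
          linarith
        have g2 : (1 + (r : ℝ) * Aa) ^ n ≤ ((1 + 4 * (R : ℝ)) *
            2 ^ ((ε₁ + n * (θ + ε₁) + (θ + ε₁) + Y) * J)) ^ n :=
          pow_le_pow_left₀ (by positivity) g1 n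
        rw [mul_pow, E_pow] at g2
        refine g2.trans ((mul_le_mul_of_nonneg_right f1 (E_pos J _).le).trans ?_)
        rw [E_add]
        refine E_mono J ?_
        have g3 : (n : ℝ) * (ε₁ + n * (θ + ε₁) + (θ + ε₁) + Y) =
            n * (n + 2) * ε₁ + n * ((n + 1) * θ + Y) := by ring
        have g4 : (n : ℝ) * (n + 2) * ε₁ ≤ (n + 1) * (n + 2) * ε₁ := by
          refine mul_le_mul_of_nonneg_right ?_ hε10.le
          exact mul_le_mul_of_nonneg_right (by linarith) (by positivity)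
        linarith
      have e3 := mul_le_mul_of_nonneg_right e2 (E_pos J (sn j (z 0) - sn i (z 0))).le
      rw [E_add] at e3
      refine e3.trans (E_mono J ?_)
      linarith
    · exact hinj
    · intro r' hr' l h3 h4
      rw [← hLe]
      exact hTd r' (by omega) l h3 h4 _
    · intro r' hr' i' h3 h4 W hW
      refine (hgood1 ω hω.2 r' (by omega) i' h3 h4 W hW).trans ?_
      rw [Finset.mul_sum, Finset.mul_sum]
      refine Finset.sum_le_sum fun l hl => ?_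
      have hli := Finset.mem_range.1 hl
      rw [← mul_assoc, ← mul_assoc]
      refine mul_le_mul_of_nonneg_right ?_ (abs_nonneg _)
      have e1 : (2 : ℝ) ^ (sn l (z 0) * J) / 2 ^ (sn i' (z 0) * J) =
          2 ^ ((sn l (z 0) - sn i' (z 0)) * J) := by
        rw [sub_mul, Real.rpow_sub (by norm_num)]
      rw [e1, hAa]
      have e2 := prec_le (J := J) (p := pl (r' + 1) i') (e := ε₁)
        (x := sn i' (z (r' + 1)) - θ - ε₁) (by linarith [hpl (r' + 1) (by omega) i' h3 h4])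
      have e3 := prec_le (J := J) (p := pl r' i') (e := ε₁)
        (x := sn i' (z r') - θ - ε₁) (by linarith [hpl r' (by omega) i' h3 h4])
      have e4 := hY r' (by omega) r' le_rfl (Nat.le_succ _) i' h3 h4 l hli
      have e5 := hY r' (by omega) (r' + 1) (Nat.le_succ _) le_rfl i' h3 h4 l hli
      have hin : (i' : ℝ) ≤ n := by exact_mod_cast h4
      have e6 : (2 : ℝ) ^ (-(sn i' (z (r' + 1)) - θ - ε₁) * J) * 2 ^ (sn l (z (r' + 1)) * J) ≤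
          2 ^ ((sn l (z 0) - sn i' (z 0) + Y + θ + ε₁) * J) := by
        rw [E_add]
        exact E_mono J (by linarith)
      have e7 : (2 : ℝ) ^ (-(sn i' (z r') - θ - ε₁) * J) * 2 ^ (sn l (z (r' + 1)) * J) ≤
          2 ^ ((sn l (z 0) - sn i' (z 0) + Y + θ + ε₁) * J) := by
        rw [E_add]
        exact E_mono J (by linarith)
      have e8 : ((1 : ℝ) / 2 ^ ⌊(pl (r' + 1) i' - ε₁) * J⌋₊ + 1 / 2 ^ ⌊(pl r' i' - ε₁) * J⌋₊) *
          2 ^ (sn l (z (r' + 1)) * J) ≤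
          4 * 2 ^ ((sn l (z 0) - sn i' (z 0) + Y + θ + ε₁) * J) := by
        have g1 := mul_le_mul_of_nonneg_right e2 (E_pos J (sn l (z (r' + 1)))).le
        have g2 := mul_le_mul_of_nonneg_right e3 (E_pos J (sn l (z (r' + 1)))).le
        rw [mul_assoc] at g1 g2
        rw [add_mul]
        linarith
      have e9 := mul_le_mul_of_nonneg_left e8 (E_pos J (ε₁ + i' * (θ + ε₁))).le
      have e10 : (2 : ℝ) ^ ((ε₁ + i' * (θ + ε₁)) * J) *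
          (4 * 2 ^ ((sn l (z 0) - sn i' (z 0) + Y + θ + ε₁) * J)) ≤
          4 * 2 ^ ((ε₁ + n * (θ + ε₁) + (θ + ε₁) + Y) * J) *
            2 ^ ((sn l (z 0) - sn i' (z 0)) * J) := by
        have g1 : (2 : ℝ) ^ ((ε₁ + i' * (θ + ε₁)) * J) *
            (4 * 2 ^ ((sn l (z 0) - sn i' (z 0) + Y + θ + ε₁) * J)) =
            4 * (2 ^ ((ε₁ + i' * (θ + ε₁)) * J) *
              2 ^ ((sn l (z 0) - sn i' (z 0) + Y + θ + ε₁) * J)) := by ring
        rw [g1, mul_assoc (4 : ℝ), E_add, E_add]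
        refine mul_le_mul_of_nonneg_left (E_mono J ?_) (by norm_num)
        have g2 : (i' : ℝ) * (θ + ε₁) ≤ n * (θ + ε₁) :=
          mul_le_mul_of_nonneg_right hin (by linarith)
        linarith
      have e11 := e9.trans e10
      refine le_trans (le_of_eq ?_) e11
      ring

/-- **Natural affine labels of the window `v`**, with their precisions. -/
structure LbwQ {J : ℕ} (F : Fam m J) (c : ℕ → Fin m) (n D : ℕ) (sn : ℕ → ℝ → ℝ) (t ε : ℝ)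
    (GA : PtT F → ℕ → MvPolynomial (Option (Fin m)) ℝ) (B : F.Ω → Prop) (v : ℝ) : Prop where
  lb : ∃ (GB : PtT F → ℕ → MvPolynomial (Option (Fin m)) ℝ)
    (HB : LnT F → ℕ → MvPolynomial (Option (Fin m)) ℝ),
    LbN F c n B v (fun l => sn l t) (fun l => sn l v) ε GA GB HB ∧ ∀ l, 1 ≤ l → l ≤ n →
      LbQ F c l ⌊v * J⌋₊ ⌊(sn l v - ε) * J⌋₊ B (fun y => GB y l) (fun s => HB s l)
  l0 : Lb0 F c D ⌊v * J⌋₊ ⌊(sn 0 v - ε) * J⌋₊ B

theorem LbQ.sub {J : ℕ} {F : Fam m J} {c : ℕ → Fin m} {l w P : ℕ} {A B : F.Ω → Prop}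
    {GA : PtT F → MvPolynomial (Option (Fin m)) ℝ} {HA : LnT F → MvPolynomial (Option (Fin m)) ℝ}
    (h : LbQ F c l w P A GA HA) (hB : Sub B A) : LbQ F c l w P B GA HA := by
  obtain ⟨V, z, z', G, hl, h1, h2⟩ := h
  exact ⟨V, z, z', G, hl.sub hB, h1, h2⟩

theorem LbwQ.sub {J : ℕ} {F : Fam m J} {c : ℕ → Fin m} {n D : ℕ} {sn : ℕ → ℝ → ℝ} {t ε v : ℝ}
    {GA : PtT F → ℕ → MvPolynomial (Option (Fin m)) ℝ} {B B' : F.Ω → Prop}
    (h : LbwQ F c n D sn t ε GA B v) (hB : Sub B' B) : LbwQ F c n D sn t ε GA B' v := by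
  obtain ⟨⟨GB, HB, h1, h3⟩, h2⟩ := h
  exact ⟨⟨GB, HB, h1.sub hB, fun l a b => (h3 l a b).sub hB⟩, h2.sub hB⟩

/-- **Natural affine labels of one window.** -/
theorem lbwQ_one {S : PCl m} {c : ℕ → Fin m} {n D : ℕ} {sn : ℕ → ℝ → ℝ} {G : Set ℝ}
    {t v φ₀ φ₁ s' θ : ℝ} {bl pl : ℕ → ℝ} (L : Lvl S c n sn G t v φ₀ φ₁ s' θ bl pl)
    (h0 : ∀ e : ℝ, 0 < e → Bas S (fun J F A => Lb0 F c D ⌊v * J⌋₊ ⌊(sn 0 v - e) * J⌋₊ A))
    {ε : ℝ} (hε : 0 < ε) {η : ℝ} (hη : 0 < η) :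
    ∃ e₀ : ℝ, 0 < e₀ ∧ Bas S (fun J F A => ∀ (GA : PtT F → ℕ → MvPolynomial (Option (Fin m)) ℝ)
      (HA : LnT F → ℕ → MvPolynomial (Option (Fin m)) ℝ), LbA F c n bl pl e₀ A GA HA →
      ∃ B : F.Ω → Prop, Sub B A ∧ (1 - η) * Pe F.p A ≤ Pe F.p B ∧
        LbwQ F c n D sn t (ε + n * ((n + 1) * θ + (3 * s' * φ₀ + 2 * φ₁))) GA B v) := by
  classical
  obtain ⟨C₀, htm⟩ := L.tm
  obtain ⟨d, hnd, hch⟩ := L.ch
  have hφ := L.φ₀0
  -- the windows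
  obtain ⟨N₀, hN₀⟩ := exists_nat_ge ((v - t) / φ₀)
  obtain ⟨R, b, hb0, hbR, hb, hbs⟩ := gseq L.tG (show 2 * φ₀ < 3 * φ₀ by linarith) N₀ v L.vG L.tv
    (by
      rw [div_le_iff₀ hφ] at hN₀
      linarith) L.gap
  obtain ⟨z, hz⟩ : ∃ z : ℕ → ℝ, z = fun r => b (R - r) := ⟨_, rfl⟩
  have hz0 : z 0 = t := by
    rw [hz]
    simpa using hbR
  have hzR : z R = v := by
    rw [hz]
    simpa using hb0
  have hzG : ∀ r ≤ R, z r ∈ G ∧ t ≤ z r ∧ z r ≤ v := fun r hr => by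
    rw [hz]
    exact hb (R - r) (by omega)
  have hzs : ∀ r < R, z r ≤ z (r + 1) ∧ z (r + 1) ≤ z r + 3 * φ₀ := fun r hr => by
    have h1 := hbs (R - (r + 1)) (by omega)
    have e1 : R - (r + 1) + 1 = R - r := by omega
    rw [e1] at h1
    rw [hz]
    exact h1
  -- the labels
  have hex : ∀ w : ℝ, ∃ bl' pl' : ℕ → ℝ, w ∈ G → t ≤ w → w ≤ v → ∀ l, 1 ≤ l → l ≤ n →
      bl' l ≤ w ∧ sn l w - θ ≤ pl' l ∧ AffL S ((range l).image c) (c l) (bl' l) (pl' l) := by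
    intro w
    by_cases h : w ∈ G ∧ t ≤ w ∧ w ≤ v
    · obtain ⟨bl', pl', h1⟩ := L.lab w h.1 h.2.1 h.2.2
      exact ⟨bl', pl', fun _ _ _ => h1⟩
    · exact ⟨fun _ => 0, fun _ => 0, fun a b c => absurd ⟨a, b, c⟩ h⟩
  choose fb fp hf using hex
  obtain ⟨BL, hBL⟩ : ∃ BL : ℕ → ℕ → ℝ, BL = fun r => if r = 0 then bl else fb (z r) := ⟨_, rfl⟩
  obtain ⟨PL, hPL⟩ : ∃ PL : ℕ → ℕ → ℝ, PL = fun r => if r = 0 then pl else fp (z r) := ⟨_, rfl⟩
  have hBL0 : BL 0 = bl := by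
    rw [hBL]
    exact if_pos rfl
  have hPL0 : PL 0 = pl := by
    rw [hPL]
    exact if_pos rfl
  have hBL1 : ∀ r, 1 ≤ r → BL r = fb (z r) := fun r hr => by
    rw [hBL]
    exact if_neg (by omega)
  have hPL1 : ∀ r, 1 ≤ r → PL r = fp (z r) := fun r hr => by
    rw [hPL]
    exact if_neg (by omega)
  have hall : ∀ r ≤ R, ∀ l, 1 ≤ l → l ≤ n → BL r l ≤ z r ∧ sn l (z r) - θ ≤ PL r l := by
    intro r hr l h1 h2
    rcases Nat.eq_zero_or_pos r with h3 | h3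
    · subst h3
      rw [hBL0, hPL0, hz0]
      exact L.fr l h1 h2
    · rw [hBL1 r h3, hPL1 r h3]
      obtain ⟨k1, k2, k3⟩ := hzG r hr
      have k4 := hf (z r) k1 k2 k3 l h1 h2
      exact ⟨k4.1, k4.2.1⟩
  have hs' := L.s0
  have hφ1 := L.φ₁0
  have key := lab_clsQ htm hch hnd L.inj (R := R) (z := z) (fun r hr => (hzG r hr).1)
    (fun r hr => (hzs r hr).1) (bl := BL) (pl := PL) (fun r hr l a b => (hall r hr l a b).1)
    (fun r h1 hr l a b => by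
      rw [hBL1 r h1, hPL1 r h1]
      obtain ⟨k1, k2, k3⟩ := hzG r hr
      exact (hf (z r) k1 k2 k3 l a b).2.2) (θ := θ) (Y := 3 * s' * φ₀ + 2 * φ₁) L.θ0
    (by positivity) (fun r hr l a b => (hall r hr l a b).2) (by
      intro r hr q hq1 hq2 i h1 h2 l hl
      obtain ⟨k1, k2, k3⟩ := hzG 0 (Nat.zero_le _)
      obtain ⟨a1, a2, a3⟩ := hzG (r + 1) (by omega)
      obtain ⟨b1, b2, b3⟩ := hzG r (by omega)
      obtain ⟨c1, c2⟩ := hzs r hr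
      have hY0 : 0 ≤ 3 * s' * φ₀ := by positivity
      have e1 := L.inc i h1 h2 l hl (z 0) k1 (z (r + 1)) a1 k2 (by rw [hz0]; exact a2) a3
      have e2 := L.inc i h1 h2 l hl (z 0) k1 (z r) b1 k2 (by rw [hz0]; exact b2) b3
      have e3 := L.slp l (by omega) (z r) b1 (z (r + 1)) a1 b2 c1 a3
      have e4 : s' * (z (r + 1) - z r) ≤ s' * (3 * φ₀) :=
        mul_le_mul_of_nonneg_left (by linarith) hs'
      rcases Nat.eq_or_lt_of_le hq1 with h3 | h3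
      · subst h3
        linarith
      · have e5 : q = r + 1 := by omega
        subst e5
        linarith) hε hη
  obtain ⟨e₀, he₀, H⟩ := key
  have hεt : 0 < ε + n * ((n + 1) * θ + (3 * s' * φ₀ + 2 * φ₁)) := by
    have := L.θ0
    positivity
  refine ⟨e₀, he₀, Bas.mono 0 (H.and (h0 _ hεt)) ?_⟩
  rintro J - F A ⟨H, hl0⟩ GA HA hA
  rw [hBL0, hPL0] at H
  obtain ⟨B, GB, HB, hB, hmass, -, -, hl⟩ := H GA HA hA
  have h1 := hl R le_rfl
  rw [hz0, hzR] at h1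
  exact ⟨B, hB, hmass, ⟨_, _, h1.1, h1.2⟩, hl0.sub hB⟩

/-- **Natural affine labels at finitely many windows.** -/
theorem lbwQ_ex {S : PCl m} {c : ℕ → Fin m} {n D : ℕ} {sn : ℕ → ℝ → ℝ} {G : Set ℝ}
    {t φ₀ φ₁ s' θ : ℝ} {bl pl : ℕ → ℝ} (hpos : ∀ (τ : ℝ) (J : ℕ) (F : Fam m J) (A : F.Ω → Prop),
      S.St τ J F A → 0 < Pe F.p A) {K : ℕ} {vs : ℕ → ℝ}
    (L : ∀ k < K, Lvl S c n sn G t (vs k) φ₀ φ₁ s' θ bl pl)
    (h0 : ∀ k < K, ∀ e : ℝ, 0 < e →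
      Bas S (fun J F A => Lb0 F c D ⌊vs k * J⌋₊ ⌊(sn 0 (vs k) - e) * J⌋₊ A))
    {ε : ℝ} (hε : 0 < ε) {η : ℝ} (hη : 0 < η) :
    ∃ e₀ : ℝ, 0 < e₀ ∧ Bas S (fun J F A => ∀ (GA : PtT F → ℕ → MvPolynomial (Option (Fin m)) ℝ)
      (HA : LnT F → ℕ → MvPolynomial (Option (Fin m)) ℝ), LbA F c n bl pl e₀ A GA HA →
      ∃ B : F.Ω → Prop, Sub B A ∧ (1 - η) * Pe F.p A ≤ Pe F.p B ∧ ∀ k < K,
        LbwQ F c n D sn t (ε + n * ((n + 1) * θ + (3 * s' * φ₀ + 2 * φ₁))) GA B (vs k)) := by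
  classical
  obtain ⟨η', hη'⟩ : ∃ η' : ℝ, η' = η / (K + 1) := ⟨_, rfl⟩
  have hη0 : 0 < η' := by
    rw [hη']
    positivity
  have key : ∀ k' ≤ K, ∃ e₀ : ℝ, 0 < e₀ ∧ Bas S (fun J F A =>
      ∀ (GA : PtT F → ℕ → MvPolynomial (Option (Fin m)) ℝ)
      (HA : LnT F → ℕ → MvPolynomial (Option (Fin m)) ℝ), LbA F c n bl pl e₀ A GA HA →
      ∃ B : F.Ω → Prop, Sub B A ∧ (1 - k' * η') * Pe F.p A ≤ Pe F.p B ∧ ∀ k < k',
        LbwQ F c n D sn t (ε + n * ((n + 1) * θ + (3 * s' * φ₀ + 2 * φ₁))) GA B (vs k)) := by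
    intro k'
    induction k' with
    | zero =>
      intro _
      refine ⟨1, one_pos, 1, one_pos, 0, fun J _ F A _ GA HA _ => ⟨A, fun _ h => h, ?_,
        fun k hk => absurd hk (Nat.not_lt_zero k)⟩⟩
      rw [Nat.cast_zero, zero_mul, sub_zero, one_mul]
    | succ k' ih =>
      intro hk
      obtain ⟨e₁, he₁, H₁⟩ := ih (by omega)
      obtain ⟨e₂, he₂, H₂⟩ := lbwQ_one (L k' (by omega)) (h0 k' (by omega)) hε hη0
      refine ⟨min e₁ e₂, lt_min he₁ he₂, Bas.mono 0 ((H₁.and H₂).and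
        ⟨1, one_pos, 0, fun J _ F A hA => hpos 1 J F A hA⟩) ?_⟩
      rintro J - F A ⟨⟨h1, h2⟩, hA⟩ GA HA hl
      obtain ⟨B₁, a1, a2, a3⟩ := h1 GA HA (hl.mono (min_le_left _ _))
      obtain ⟨B₂, b1, b2, b3⟩ := h2 GA HA (hl.mono (min_le_right _ _))
      refine ⟨fun ω => B₁ ω ∧ B₂ ω, fun ω h => a1 ω h.1, ?_, fun k hk' => ?_⟩
      · have e1 := Pe_parts (p := F.p) (B := A) (B' := B₁) a1
        have e2 := Pe_parts (p := F.p) (B := A) (B' := B₂) b1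
        have e3 := Pe_parts (p := F.p) (B := A) (B' := fun ω => B₁ ω ∧ B₂ ω) fun ω h => a1 ω h.1
        have e4 : Pe F.p (fun ω => A ω ∧ ¬ (B₁ ω ∧ B₂ ω)) ≤
            Pe F.p (fun ω => A ω ∧ ¬ B₁ ω) + Pe F.p (fun ω => A ω ∧ ¬ B₂ ω) := by
          rw [Pool.DIR21.Pe_ci, Pool.DIR21.Pe_ci, Pool.DIR21.Pe_ci, ← Finset.sum_add_distrib]
          refine Finset.sum_le_sum fun ω _ => ?_
          have h0 := F.isLaw.nonneg ω
          have k1 := Pool.DIR21.ci_nonneg (A ω ∧ ¬ B₁ ω)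
          have k2 := Pool.DIR21.ci_nonneg (A ω ∧ ¬ B₂ ω)
          rw [← mul_add]
          refine mul_le_mul_of_nonneg_left ?_ h0
          by_cases hc : A ω ∧ ¬ (B₁ ω ∧ B₂ ω)
          · rw [Pool.DIR21.ci1 hc]
            by_cases hc1 : B₁ ω
            · have hc2 : A ω ∧ ¬ B₂ ω := ⟨hc.1, fun h => hc.2 ⟨hc1, h⟩⟩
              rw [Pool.DIR21.ci1 hc2]
              linarith
            · rw [Pool.DIR21.ci1 (show A ω ∧ ¬ B₁ ω from ⟨hc.1, hc1⟩)]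
              linarith
          · rw [Pool.DIR21.ci0 hc]
            linarith
        push_cast
        linarith
      · rcases Nat.lt_or_ge k k' with h | h
        · exact (a3 k h).sub fun ω h => h.1
        · rw [show k = k' by omega]
          exact b3.sub fun ω h => h.2
  obtain ⟨e₀, he₀, H⟩ := key K le_rfl
  refine ⟨e₀, he₀, Bas.mono 0 H ?_⟩
  intro J _ F A h GA HA hl
  obtain ⟨B, h1, h2, h3⟩ := h GA HA hl
  refine ⟨B, h1, le_trans (mul_le_mul_of_nonneg_right ?_ (Pe_nonneg F.isLaw A)) h2, h3⟩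
  have e1 : (K : ℝ) * η' ≤ η := by
    rw [hη', mul_div_assoc', div_le_iff₀ (by positivity)]
    nlinarith
  linarith

end Pool.T4J
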