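import Pool.Agent.H4.D1.Win
import Pool.Agent.H4.T4.Lbx

/-!
# Natural coordinates of the heights over the frame, from the labels of a window

`ev_low`, `ncp10`, `ncp21`, `ncp20`: coefficients of affine polynomials. `cmb_alg`: the heights over
the frame as combinations of the heights over the labels of a window. `nat_of`: natural coordinates
from natural affine labels.
-/

set_option autoImplicit false

namespace Pool.T4J

open Finset Real MvPolynomial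
open Pool.Agent.H49.Ent Pool.Agent.H32.Dense
open Pool.STK hiding pr2
open Pool.KA Pool.KSAT Pool.K2S Pool.PB Pool.S6C
open Pool.GEN Pool.CHT Pool.CHX Pool.ISO
open Pool.D2R Pool.GF64
open Pool.D2F2 (hgp vlp ojet_hgp ojet_vlp)
open Pool.RCD Pool.LA91
open Pool.GRD (LbP)
open Pool.AVG57 (upw upw_slam)
open Pool.FVL91 (coe1 eval_one)
open Pool.T4N (Frm FrmP fX fV)
open Pool.D164 (NatE NatO Pm)

variable {m J : ℕ}

/-! ### Coefficients -/

/-- The value of an affine polynomial over the places below `i`. -/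
theorem ev_low {c : ℕ → Fin m} {i : ℕ} (hc : Set.InjOn c (Set.Iio i))
    {G : MvPolynomial (Option (Fin m)) ℝ} (hG : G.totalDegree ≤ 1) (hd : DepC c i G)
    (x : Option (Fin m) → ℝ) : eval x G = coeff 0 G + coeff (Finsupp.single none 1) G * x none +
      ∑ j ∈ range i, coe1 (c j) G * x (some (c j)) := by
  have h1 := ev_aff hG 0 x
  have e0 : eval 0 G = coeff 0 G := by
    rw [eval_one hG]
    simp
  have h2 := dd_low hc hG hd 0 (fun o => x o - (0 : Option (Fin m) → ℝ) o)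
  rw [h2] at h1
  simp only [Pi.zero_apply, sub_zero] at h1
  rw [e0] at h1
  linarith

/-- The coefficient of a difference. -/
theorem coe1_sub (k : Fin m) (P Q : MvPolynomial (Option (Fin m)) ℝ) :
    coe1 k (P - Q) = coe1 k P - coe1 k Q := by
  unfold coe1
  rw [coeff_sub]

/-- The components over one place. -/
theorem ncp10 {c : ℕ → Fin m} (hc : Set.InjOn c (Set.Iio 3))
    {ψ : ℕ → MvPolynomial (Option (Fin m)) ℝ} (hψ : ∀ l, DepC c l (ψ l)) (h0 : ψ 0 = 0)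
    {Q : MvPolynomial (Option (Fin m)) ℝ} (hQ : Q.totalDegree ≤ 1) (hd : DepC c 1 Q)
    (x : Option (Fin m) → ℝ) : ncp c 1 ψ Q x 0 = coe1 (c 0) Q := by
  rw [ncp_eq hψ hd (W := Pi.single (some (c 0)) 1) (Pi.single_eq_of_ne (by simp) _), dd_coe hQ]
  · rfl
  · intro l hl
    obtain rfl : l = 0 := by omega
    rw [h0, Pi.single_eq_same, if_pos rfl]
    unfold dd
    simp

/-- The components over two places. -/
theorem ncp2 {c : ℕ → Fin m} (hc : Set.InjOn c (Set.Iio 3))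
    {ψ : ℕ → MvPolynomial (Option (Fin m)) ℝ} (hψ : ∀ l, DepC c l (ψ l)) (h0 : ψ 0 = 0)
    (h1 : (ψ 1).totalDegree ≤ 1)
    {Q : MvPolynomial (Option (Fin m)) ℝ} (hQ : Q.totalDegree ≤ 1) (hd : DepC c 2 Q)
    (x : Option (Fin m) → ℝ) : ncp c 2 ψ Q x 1 = coe1 (c 1) Q ∧
      ncp c 2 ψ Q x 0 = coe1 (c 0) Q + coe1 (c 1) Q * coe1 (c 0) (ψ 1) := by
  have hne : (some (c 1) : Option (Fin m)) ≠ some (c 0) := fun e => by
    have := hc (Set.mem_Iio.2 (by norm_num)) (Set.mem_Iio.2 (by norm_num)) (Option.some.inj e)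
    omega
  have hc2 : Set.InjOn c (Set.Iio 2) := hc.mono fun y hy => by
    rw [Set.mem_Iio] at hy ⊢
    omega
  have hc1 : Set.InjOn c (Set.Iio 1) := hc.mono fun y hy => by
    rw [Set.mem_Iio] at hy ⊢
    omega
  have key : ∀ a k : ℝ, ∀ W : Option (Fin m) → ℝ, W none = 0 → W (some (c 0)) = a →
      W (some (c 1)) = k → dd Q x W = coe1 (c 0) Q * a + coe1 (c 1) Q * k ∧
      dd (ψ 1) x W = coe1 (c 0) (ψ 1) * a := by
    intro a k W hW hW0 hW1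
    rw [dd_low hc2 hQ hd, dd_low hc1 h1 (hψ 1), hW, mul_zero, zero_add, mul_zero, zero_add,
      Finset.sum_range_succ, Finset.sum_range_one, Finset.sum_range_one, hW0, hW1]
    exact ⟨rfl, rfl⟩
  have hdd0 : ∀ W : Option (Fin m) → ℝ, dd (0 : MvPolynomial (Option (Fin m)) ℝ) x W = 0 := by
    intro W
    unfold dd
    simp
  constructor
  · obtain ⟨W, hW⟩ : ∃ W : Option (Fin m) → ℝ, W = Pi.single (some (c 1)) 1 := ⟨_, rfl⟩
    have w0 : W none = 0 := by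
      rw [hW]
      exact Pi.single_eq_of_ne (by simp) _
    have w1 : W (some (c 0)) = 0 := by
      rw [hW]
      exact Pi.single_eq_of_ne (Ne.symm hne) _
    have w2 : W (some (c 1)) = 1 := by
      rw [hW]
      exact Pi.single_eq_same _ _
    obtain ⟨k1, k2⟩ := key 0 1 W w0 w1 w2
    rw [ncp_eq hψ hd w0, k1, mul_zero, zero_add, mul_one]
    intro l hl
    have hl' : l = 0 ∨ l = 1 := by omega
    rcases hl' with rfl | rfl
    · rw [h0, hdd0, w1, sub_zero, if_neg (by norm_num)]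
    · rw [k2, w2, mul_zero, sub_zero, if_pos rfl]
  · obtain ⟨W, hW⟩ : ∃ W : Option (Fin m) → ℝ, W = fun o =>
      if o = some (c 0) then 1 else if o = some (c 1) then coe1 (c 0) (ψ 1) else 0 := ⟨_, rfl⟩
    have w0 : W none = 0 := by
      rw [hW]
      simp
    have w1 : W (some (c 0)) = 1 := by
      rw [hW]
      exact if_pos rfl
    have w2 : W (some (c 1)) = coe1 (c 0) (ψ 1) := by
      rw [hW]
      show (if (some (c 1) : Option (Fin m)) = some (c 0) then (1 : ℝ) else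
        if (some (c 1) : Option (Fin m)) = some (c 1) then coe1 (c 0) (ψ 1) else 0) = _
      rw [if_neg hne, if_pos rfl]
    obtain ⟨k1, k2⟩ := key 1 _ W w0 w1 w2
    rw [ncp_eq hψ hd w0, k1, mul_one]
    intro l hl
    have hl' : l = 0 ∨ l = 1 := by omega
    rcases hl' with rfl | rfl
    · rw [h0, hdd0, w1, sub_zero, if_pos rfl]
    · rw [k2, w2, mul_one, sub_self, if_neg (by norm_num)]

/-! ### Heights over two frames -/

/-- **The heights over the frame** as combinations of the heights over the labels of a window. -/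
theorem cmb_alg {X aA aL : ℕ → ℝ} {la ab : ℕ → ℕ → ℝ} {k : ℝ} (hk : k = la 1 1 - ab 1 1)
    (h1 : la 2 1 = ab 2 1) (h2 : la 2 2 = ab 2 2) (i : Fin 3) :
    X (1 + i) - (aA i + ∑ j ∈ range (1 + i), ab i j * X j) =
      ∑ l ∈ range 3, Pm k i l * (X (1 + l) - (aL l + ∑ j ∈ range (1 + l), la l j * X j)) +
      ((aL i - aA i + if i = 1 then k * aL 0 else 0) +
        (la i 0 - ab i 0 + if i = 1 then k * la 0 0 else 0) * X 0) := by
  have s1 : ∀ f : ℕ → ℝ, ∑ j ∈ range 1, f j = f 0 := fun f => Finset.sum_range_one f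
  have s2 : ∀ f : ℕ → ℝ, ∑ j ∈ range 2, f j = f 0 + f 1 := fun f => by
    rw [Finset.sum_range_succ, s1]
  have s3 : ∀ f : ℕ → ℝ, ∑ j ∈ range 3, f j = f 0 + f 1 + f 2 := fun f => by
    rw [Finset.sum_range_succ, s2]
  rw [s3]
  fin_cases i
  · have e0 : Pm k 0 0 = 1 := by simp [Pm]
    have e1 : Pm k 0 1 = 0 := by simp [Pm]
    have e2 : Pm k 0 2 = 0 := by simp [Pm]
    show X 1 - (aA 0 + ∑ j ∈ range 1, ab 0 j * X j) =
      Pm k 0 0 * (X 1 - (aL 0 + ∑ j ∈ range 1, la 0 j * X j)) +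
      Pm k 0 1 * (X 2 - (aL 1 + ∑ j ∈ range 2, la 1 j * X j)) +
      Pm k 0 2 * (X 3 - (aL 2 + ∑ j ∈ range 3, la 2 j * X j)) +
      ((aL 0 - aA 0 + if (0 : Fin 3) = 1 then k * aL 0 else 0) +
        (la 0 0 - ab 0 0 + if (0 : Fin 3) = 1 then k * la 0 0 else 0) * X 0)
    rw [e0, e1, e2, if_neg (by decide), if_neg (by decide), s1, s1]
    ring
  · have e0 : Pm k 1 0 = k := by simp [Pm]
    have e1 : Pm k 1 1 = 1 := by simp [Pm]
    have e2 : Pm k 1 2 = 0 := by simp [Pm]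
    show X 2 - (aA 1 + ∑ j ∈ range 2, ab 1 j * X j) =
      Pm k 1 0 * (X 1 - (aL 0 + ∑ j ∈ range 1, la 0 j * X j)) +
      Pm k 1 1 * (X 2 - (aL 1 + ∑ j ∈ range 2, la 1 j * X j)) +
      Pm k 1 2 * (X 3 - (aL 2 + ∑ j ∈ range 3, la 2 j * X j)) +
      ((aL 1 - aA 1 + if (1 : Fin 3) = 1 then k * aL 0 else 0) +
        (la 1 0 - ab 1 0 + if (1 : Fin 3) = 1 then k * la 0 0 else 0) * X 0)
    rw [e0, e1, e2, if_pos rfl, if_pos rfl, s1, s2, s2, hk]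
    ring
  · have e0 : Pm k 2 0 = 0 := by simp [Pm]
    have e1 : Pm k 2 1 = 0 := by simp [Pm]
    have e2 : Pm k 2 2 = 1 := by simp [Pm]
    show X 3 - (aA 2 + ∑ j ∈ range 3, ab 2 j * X j) =
      Pm k 2 0 * (X 1 - (aL 0 + ∑ j ∈ range 1, la 0 j * X j)) +
      Pm k 2 1 * (X 2 - (aL 1 + ∑ j ∈ range 2, la 1 j * X j)) +
      Pm k 2 2 * (X 3 - (aL 2 + ∑ j ∈ range 3, la 2 j * X j)) +
      ((aL 2 - aA 2 + if (2 : Fin 3) = 1 then k * aL 0 else 0) +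
        (la 2 0 - ab 2 0 + if (2 : Fin 3) = 1 then k * la 0 0 else 0) * X 0)
    rw [e0, e1, e2, if_neg (by decide), if_neg (by decide), s3, s3, h1, h2]
    ring

/-! ### Cleaned labels -/

open Classical in
/-- A polynomial of degree one over the places below `l`, or zero. -/
noncomputable def cln (c : ℕ → Fin m) (l : ℕ) (p : MvPolynomial (Option (Fin m)) ℝ) :
    MvPolynomial (Option (Fin m)) ℝ := if p.totalDegree ≤ 1 ∧ DepC c l p then p else 0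

theorem cln_dg (c : ℕ → Fin m) (l : ℕ) (p : MvPolynomial (Option (Fin m)) ℝ) :
    (cln c l p).totalDegree ≤ 1 ∧ DepC c l (cln c l p) := by
  unfold cln
  split_ifs with h
  · exact h
  · refine ⟨by rw [totalDegree_zero]; exact Nat.zero_le 1, fun b b' _ _ => ?_⟩
    rw [map_zero, map_zero]

theorem cln_eq {c : ℕ → Fin m} {l : ℕ} {p : MvPolynomial (Option (Fin m)) ℝ}
    (h : p.totalDegree ≤ 1 ∧ DepC c l p) : cln c l p = p := if_pos h

/-- The point of the time `T`. -/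
noncomputable def tpt (m J T : ℕ) : Option (Fin m) → ℝ
  | none => (T : ℝ) / 2 ^ J
  | some _ => 0

/-! ### Natural coordinates -/

/-- **Natural coordinates** from natural affine labels. `w`: the windows of the frame; `GB`, `HB`: the
labels of `c 1`, `c 2` at the window `v`; `GT`: the label of the target. -/
theorem nat_of {F : Fam m J} {c : ℕ → Fin m} {sn : ℕ → ℝ → ℝ} {t v ε₁ ε₂ ε R q q' : ℝ}
    (hc : Set.InjOn c (Set.Iio 4)) {B : F.Ω → Prop} {w P : Fin 3 → ℕ} {Fr : Frm F}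
    (hFr : FrmP F c w P B Fr) (hw : ∀ i, w i ≤ ⌊v * J⌋₊) (ha : ⌊v * J⌋₊ ≤ J)
    {GB : PtT F → ℕ → MvPolynomial (Option (Fin m)) ℝ}
    {HB : LnT F → ℕ → MvPolynomial (Option (Fin m)) ℝ}
    (hN : LbN F c 2 B v (fun l => sn l t) (fun l => sn l v) ε₁ (frG Fr) GB HB)
    {VT : Type} {zT : PtT F → VT} {zT' : LnT F → VT} {GT : VT → MvPolynomial (Option (Fin m)) ℝ}
    {PT : ℕ} (hT : LbP F ((range 3).image c) (c 3) 1 J ⌊v * J⌋₊ PT B zT zT' GT)
    (hco : ∀ ω, B ω → ∀ l, l = 1 ∨ l = 2 → coe1 (c l) (GT (zT' (slam F ⌊v * J⌋₊ ω))) =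
      coe1 (c l) (Fr.G 2 (Fr.z' 2 (slam F (w 2) ω))))
    {D P0 : ℕ} (h0 : Lb0 F c D ⌊v * J⌋₊ P0 B)
    (hok : ∀ ω, B ω → WinOk F c 3 v (fun l => sn l v) ε₂ R q q'
      (fun l => if l ≤ 2 then HB (slam F ⌊v * J⌋₊ ω) l else GT (zT' (slam F ⌊v * J⌋₊ ω)))
      (Fr.G 2 (Fr.z' 2 (slam F (w 2) ω))) ω)
    (e1 : ε₁ ≤ ε) (e2 : ε₂ ≤ ε) (hPT : (1 : ℝ) / 2 ^ PT ≤ 2 ^ ((ε - sn 3 v) * J))
    (hP0 : (1 : ℝ) / 2 ^ P0 ≤ 2 ^ ((ε - sn 0 v) * J))
    (hq : 2 ^ ((ε₂ + sn 0 v) * J) * (q + q') ≤ 2 ^ ((sn 0 v - sn 3 t + ε) * J))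
    (hk : ε₁ + sn 1 t - sn 2 t ≤ ε + sn 1 v - sn 2 v) (hs : ε₁ + sn 0 t ≤ ε + sn 0 v) :
    NatE F c sn v ε R (fun i => sn 0 v - sn (1 + i) t + ε) B (fX F c w Fr) (fV F c w Fr) := by
  classical
  have hJ0 : (0 : ℝ) ≤ J := Nat.cast_nonneg J
  obtain ⟨V0, z0, z0', G0, hl0⟩ := h0
  have hc3 : Set.InjOn c (Set.Iio 3) := hc.mono fun y hy => by
    rw [Set.mem_Iio] at hy ⊢
    omega
  have hci : ∀ i : Fin 3, Set.InjOn c (Set.Iio (1 + (i : ℕ))) := fun i => hc.mono fun y hy => by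
    have := i.2
    rw [Set.mem_Iio] at hy ⊢
    omega
  -- the codes
  obtain ⟨z, hz⟩ : ∃ z : PtT F → (Fin 3 → MvPolynomial (Option (Fin m)) ℝ) ×
      ((ℕ → MvPolynomial (Option (Fin m)) ℝ) × V0), z = fun y => (fun i => Fr.G i (Fr.z i y),
        (fun l => if l < 2 then GB y (1 + l) else GT (zT y), z0 y)) := ⟨_, rfl⟩
  obtain ⟨z', hz'⟩ : ∃ z' : LnT F → (Fin 3 → MvPolynomial (Option (Fin m)) ℝ) ×
      ((ℕ → MvPolynomial (Option (Fin m)) ℝ) × V0), z' = fun s =>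
        (fun i => Fr.G i (Fr.z' i (upw (w i) ⌊v * J⌋₊ s)),
        (fun l => if l < 2 then HB s (1 + l) else GT (zT' s), z0' s)) := ⟨_, rfl⟩
  -- the values
  obtain ⟨s', hs'⟩ : ∃ s' : F.Ω → LnT F, s' = fun ω => slam F ⌊v * J⌋₊ ω := ⟨_, rfl⟩
  have v1 : ∀ ω i, (z' (slam F ⌊v * J⌋₊ ω)).1 i = Fr.G i (Fr.z' i (slam F (w i) ω)) := by
    intro ω i
    rw [hz']
    show Fr.G i (Fr.z' i (upw (w i) ⌊v * J⌋₊ (slam F ⌊v * J⌋₊ ω))) = _
    rw [upw_slam F (hw i) ha]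
  have v2 : ∀ ω l, (z' (slam F ⌊v * J⌋₊ ω)).2.1 l = if l < 2 then HB (slam F ⌊v * J⌋₊ ω) (1 + l)
      else GT (zT' (slam F ⌊v * J⌋₊ ω)) := by
    intro ω l
    rw [hz']
  have v3 : ∀ ω, (z' (slam F ⌊v * J⌋₊ ω)).2.2 = z0' (slam F ⌊v * J⌋₊ ω) := by
    intro ω
    rw [hz']
  have dgA : ∀ ω, ∀ i : Fin 3, (Fr.G i (Fr.z' i (slam F (w i) ω))).totalDegree ≤ 1 ∧
      DepC c (1 + i) (Fr.G i (Fr.z' i (slam F (w i) ω))) := by
    intro ω i
    refine ⟨(hFr.lab i).deg _, fun b b' k1 k2 => (hFr.lab i).dep _ b b' k1 fun j hj => ?_⟩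
    obtain ⟨l', hl', rfl⟩ := mem_image.1 hj
    exact k2 l' (mem_range.1 hl')
  have dgT : ∀ s, (GT (zT' s)).totalDegree ≤ 1 ∧ DepC c 3 (GT (zT' s)) := by
    intro s
    refine ⟨hT.deg _, fun b b' k1 k2 => hT.dep _ b b' k1 fun j hj => ?_⟩
    obtain ⟨l', hl', rfl⟩ := mem_image.1 hj
    exact k2 l' (mem_range.1 hl')
  have dgB : ∀ ω, ∀ l < 3, ((z' (slam F ⌊v * J⌋₊ ω)).2.1 l).totalDegree ≤ 1 ∧
      DepC c (1 + l) ((z' (slam F ⌊v * J⌋₊ ω)).2.1 l) := by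
    intro ω l hl
    rw [v2]
    split_ifs with h
    · exact hN.dh _ (1 + l) (by omega) (by omega)
    · obtain rfl : l = 2 := by omega
      exact dgT _
  have clB : ∀ ω, ∀ l < 3, cln c (1 + l) ((z' (slam F ⌊v * J⌋₊ ω)).2.1 l) =
      (z' (slam F ⌊v * J⌋₊ ω)).2.1 l := fun ω l hl => cln_eq (dgB ω l hl)
  -- the relative coefficients
  have hfr : ∀ ω, B ω → ∀ i : Fin 3, frG Fr (ptr F J ω) (1 + i) =
      Fr.G i (Fr.z' i (slam F (w i) ω)) := by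
    intro ω hω i
    rw [frG_in, (hFr.lab i).cls ω hω]
  have b1 : ∀ ω, B ω → GB (ptr F J ω) 1 = (z' (slam F ⌊v * J⌋₊ ω)).2.1 0 := by
    intro ω hω
    rw [v2, if_pos (by norm_num), hN.cls ω hω 1 le_rfl (by norm_num)]
  have b2 : ∀ ω, B ω → GB (ptr F J ω) 2 = (z' (slam F ⌊v * J⌋₊ ω)).2.1 1 := by
    intro ω hω
    rw [v2, if_pos (by norm_num), hN.cls ω hω 2 (by norm_num) le_rfl]
  have frd : ∀ ω l, DepC c l (frA 2 (GB (ptr F J ω)) l) := fun ω =>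
    frA_dep fun l k1 k2 => (hN.dg _ l k1 k2).2
  have fr1 : ∀ ω, frA 2 (GB (ptr F J ω)) 1 = GB (ptr F J ω) 1 := fun ω =>
    frA_in le_rfl (by norm_num)
  have a1 : ∀ ω, B ω → frG Fr (ptr F J ω) 1 = Fr.G 0 (Fr.z' 0 (slam F (w 0) ω)) := fun ω hω =>
    hfr ω hω 0
  have a2 : ∀ ω, B ω → frG Fr (ptr F J ω) 2 = Fr.G 1 (Fr.z' 1 (slam F (w 1) ω)) := fun ω hω =>
    hfr ω hω 1
  have r10 : ∀ ω, B ω → |coe1 (c 0) ((z' (slam F ⌊v * J⌋₊ ω)).2.1 0) -
      coe1 (c 0) (Fr.G 0 (Fr.z' 0 (slam F (w 0) ω)))| ≤ 2 ^ ((ε₁ + sn 0 t - sn 1 t) * J) := by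
    intro ω hω
    have k1 := hN.rho ω hω 1 le_rfl (by norm_num) 0 (by norm_num)
    rw [b1 ω hω, a1 ω hω, ncp10 hc3 (frd ω) frA_zero ((totalDegree_sub _ _).trans
      (max_le (dgB ω 0 (by norm_num)).1 (dgA ω 0).1)) (fun b b' k2 k3 => by
        rw [map_sub, map_sub, (dgB ω 0 (by norm_num)).2 b b' k2 k3, (dgA ω 0).2 b b' k2 k3]),
      coe1_sub] at k1
    exact k1
  have r2 : ∀ ω, B ω → |coe1 (c 1) ((z' (slam F ⌊v * J⌋₊ ω)).2.1 1) -
      coe1 (c 1) (Fr.G 1 (Fr.z' 1 (slam F (w 1) ω)))| ≤ 2 ^ ((ε₁ + sn 1 t - sn 2 t) * J) ∧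
      |coe1 (c 0) ((z' (slam F ⌊v * J⌋₊ ω)).2.1 1) -
        coe1 (c 0) (Fr.G 1 (Fr.z' 1 (slam F (w 1) ω))) +
        (coe1 (c 1) ((z' (slam F ⌊v * J⌋₊ ω)).2.1 1) -
          coe1 (c 1) (Fr.G 1 (Fr.z' 1 (slam F (w 1) ω)))) *
          coe1 (c 0) ((z' (slam F ⌊v * J⌋₊ ω)).2.1 0)| ≤ 2 ^ ((ε₁ + sn 0 t - sn 2 t) * J) := by
    intro ω hω
    have k1 := hN.rho ω hω 2 (by norm_num) le_rfl 1 (by norm_num)
    have k0 := hN.rho ω hω 2 (by norm_num) le_rfl 0 (by norm_num)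
    have hn := ncp2 hc3 (frd ω) frA_zero (by
        rw [fr1 ω, b1 ω hω]
        exact (dgB ω 0 (by norm_num)).1) (Q := (z' (slam F ⌊v * J⌋₊ ω)).2.1 1 -
          Fr.G 1 (Fr.z' 1 (slam F (w 1) ω))) ((totalDegree_sub _ _).trans
      (max_le (dgB ω 1 (by norm_num)).1 (dgA ω 1).1)) (fun b b' k2 k3 => by
        rw [map_sub, map_sub, (dgB ω 1 (by norm_num)).2 b b' k2 k3, (dgA ω 1).2 b b' k2 k3])
        (bt F ω)
    rw [b2 ω hω, a2 ω hω, hn.1, coe1_sub] at k1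
    rw [b2 ω hω, a2 ω hω, hn.2, coe1_sub, coe1_sub, fr1 ω, b1 ω hω] at k0
    exact ⟨k1, k0⟩
  -- values and velocities
  have hval : ∀ ω, ∀ i : ℕ, ∀ G : MvPolynomial (Option (Fin m)) ℝ, i < 3 → G.totalDegree ≤ 1 →
      DepC c (1 + i) G → eval (bt F ω) G = (coeff 0 G + coeff (Finsupp.single none 1) G * F.t ω) +
        ∑ j ∈ range (1 + i), coe1 (c j) G * F.x ω (c j) := by
    intro ω i G hi k1 k2
    exact ev_low (hc.mono fun y hy => by
      rw [Set.mem_Iio] at hy ⊢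
      omega) k1 k2 (bt F ω)
  have hvel : ∀ ω, ∀ i : ℕ, ∀ G : MvPolynomial (Option (Fin m)) ℝ, i < 3 → G.totalDegree ≤ 1 →
      DepC c (1 + i) G → dd G (bt F ω) (bd F ω) = coeff (Finsupp.single none 1) G +
        ∑ j ∈ range (1 + i), coe1 (c j) G * F.d ω (c j) := by
    intro ω i G hi k1 k2
    have k3 := dd_low (hc.mono (s₁ := Set.Iio (1 + i)) fun y hy => by
      rw [Set.mem_Iio] at hy ⊢
      omega) k1 k2 (bt F ω) (bd F ω)
    rw [k3]
    congr 1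
    exact mul_one _
  refine ⟨(Fin 3 → MvPolynomial (Option (Fin m)) ℝ) × ((ℕ → MvPolynomial (Option (Fin m)) ℝ) × V0),
    z, z', fun y l => cln c (1 + l) (y.2.1 l),
    fun y => coe1 (c 1) (y.2.1 1) - coe1 (c 1) (y.1 1),
    fun y i => coeff 0 (y.2.1 i) - coeff 0 (y.1 i) + if i = 1 then
      (coe1 (c 1) (y.2.1 1) - coe1 (c 1) (y.1 1)) * coeff 0 (y.2.1 0) else 0,
    fun y i => coeff (Finsupp.single none 1) (y.2.1 i) - coeff (Finsupp.single none 1) (y.1 i) +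
      if i = 1 then (coe1 (c 1) (y.2.1 1) - coe1 (c 1) (y.1 1)) *
        coeff (Finsupp.single none 1) (y.2.1 0) else 0,
    fun y i => coe1 (c 0) (y.2.1 i) - coe1 (c 0) (y.1 i) +
      if i = 1 then (coe1 (c 1) (y.2.1 1) - coe1 (c 1) (y.1 1)) * coe1 (c 0) (y.2.1 0) else 0,
    fun y T => eval (tpt m J T) (G0 y.2.2), ?_⟩
  refine ⟨?_, ?_, ?_, ?_, ?_, ?_, ?_, ?_, ?_, ?_, ?_⟩
  · -- the codes
    intro ω hω
    rw [hz, hz']
    refine Prod.ext (funext fun i => ?_) (Prod.ext (funext fun l => ?_) ?_)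
    · show Fr.G i (Fr.z i (ptr F J ω)) = Fr.G i (Fr.z' i (upw (w i) ⌊v * J⌋₊ (slam F ⌊v * J⌋₊ ω)))
      rw [upw_slam F (hw i) ha, (hFr.lab i).cls ω hω]
    · show (if l < 2 then GB (ptr F J ω) (1 + l) else GT (zT (ptr F J ω))) =
        if l < 2 then HB (slam F ⌊v * J⌋₊ ω) (1 + l) else GT (zT' (slam F ⌊v * J⌋₊ ω))
      split_ifs with h
      · exact hN.cls ω hω (1 + l) (by omega) (by omega)
      · rw [hT.cls ω hω]
    · exact hl0.cls ω hω
  · exact fun y l hl => (cln_dg c (1 + l) _).1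
  · exact fun y l hl => (cln_dg c (1 + l) _).2
  · -- the heights
    intro ω hω l hl
    show |hgp F (c (1 + l)) (cln c (1 + l) ((z' (slam F ⌊v * J⌋₊ ω)).2.1 l)) ω| ≤ _
    rw [clB ω l hl, v2]
    split_ifs with h
    · have k1 := hN.hgt ω hω (1 + l) (by omega) (by omega)
      rw [hN.cls ω hω (1 + l) (by omega) (by omega)] at k1
      exact k1.trans (E_mono J (by linarith))
    · obtain rfl : l = 2 := by omega
      exact (hT.pos ω hω).trans hPT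
  · -- the velocities
    intro ω hω l hl
    show |vlp F (c (1 + l)) (cln c (1 + l) ((z' (slam F ⌊v * J⌋₊ ω)).2.1 l)) ω| ≤ _
    rw [clB ω l hl, v2]
    split_ifs with h
    · have k1 := hN.vel ω hω (1 + l) (by omega) (by omega)
      rw [hN.cls ω hω (1 + l) (by omega) (by omega)] at k1
      exact k1.trans (E_mono J (by linarith))
    · obtain rfl : l = 2 := by omega
      have k1 : |vlp F (c 3) (GT (zT' (slam F ⌊v * J⌋₊ ω))) ω| ≤ 2 ^ ((ε₂ + v - sn 3 v) * J) :=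
        (hok ω hω).2.1 3 (by norm_num) le_rfl
      exact k1.trans (E_mono J (by linarith))
  · -- the relative slope
    intro ω hω
    show |coe1 (c 1) ((z' (slam F ⌊v * J⌋₊ ω)).2.1 1) - coe1 (c 1) ((z' (slam F ⌊v * J⌋₊ ω)).1 1)| ≤ _
    rw [v1]
    exact (r2 ω hω).1.trans (E_mono J (by linarith))
  · -- the heights over the frame
    intro ω hω i
    have hi := i.2
    have key := cmb_alg (X := fun l => F.x ω (c l))
      (aA := fun l => if h : l < 3 then coeff 0 ((z' (slam F ⌊v * J⌋₊ ω)).1 ⟨l, h⟩) +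
        coeff (Finsupp.single none 1) ((z' (slam F ⌊v * J⌋₊ ω)).1 ⟨l, h⟩) * F.t ω else 0)
      (aL := fun l => coeff 0 ((z' (slam F ⌊v * J⌋₊ ω)).2.1 l) +
        coeff (Finsupp.single none 1) ((z' (slam F ⌊v * J⌋₊ ω)).2.1 l) * F.t ω)
      (la := fun l j => coe1 (c j) ((z' (slam F ⌊v * J⌋₊ ω)).2.1 l))
      (ab := fun l j => if h : l < 3 then coe1 (c j) ((z' (slam F ⌊v * J⌋₊ ω)).1 ⟨l, h⟩) else 0)
      (k := coe1 (c 1) ((z' (slam F ⌊v * J⌋₊ ω)).2.1 1) -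
        coe1 (c 1) ((z' (slam F ⌊v * J⌋₊ ω)).1 1)) rfl (by
          show coe1 (c 1) ((z' (slam F ⌊v * J⌋₊ ω)).2.1 2) =
            coe1 (c 1) ((z' (slam F ⌊v * J⌋₊ ω)).1 2)
          rw [v1, v2, if_neg (by norm_num)]
          exact hco ω hω 1 (Or.inl rfl)) (by
          show coe1 (c 2) ((z' (slam F ⌊v * J⌋₊ ω)).2.1 2) =
            coe1 (c 2) ((z' (slam F ⌊v * J⌋₊ ω)).1 2)
          rw [v1, v2, if_neg (by norm_num)]
          exact hco ω hω 2 (Or.inr rfl)) i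
    have lhs : fX F c w Fr ω i = F.x ω (c (1 + i)) -
        ((if h : (i : ℕ) < 3 then coeff 0 ((z' (slam F ⌊v * J⌋₊ ω)).1 ⟨i, h⟩) +
          coeff (Finsupp.single none 1) ((z' (slam F ⌊v * J⌋₊ ω)).1 ⟨i, h⟩) * F.t ω else 0) +
        ∑ j ∈ range (1 + i), (if h : (i : ℕ) < 3 then
          coe1 (c j) ((z' (slam F ⌊v * J⌋₊ ω)).1 ⟨i, h⟩) else 0) * F.x ω (c j)) := by
      unfold fX
      rw [ojet_hgp]
      unfold hgp
      rw [dif_pos hi, hval ω i _ hi (dgA ω i).1 (dgA ω i).2]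
      congr 2
      · rw [v1]
      · refine Finset.sum_congr rfl fun j _ => ?_
        rw [dif_pos hi, v1]
    have rhs : ∀ l < 3, hgp F (c (1 + l)) (cln c (1 + l) ((z' (slam F ⌊v * J⌋₊ ω)).2.1 l)) ω =
        F.x ω (c (1 + l)) - ((coeff 0 ((z' (slam F ⌊v * J⌋₊ ω)).2.1 l) +
          coeff (Finsupp.single none 1) ((z' (slam F ⌊v * J⌋₊ ω)).2.1 l) * F.t ω) +
          ∑ j ∈ range (1 + l), coe1 (c j) ((z' (slam F ⌊v * J⌋₊ ω)).2.1 l) * F.x ω (c j)) := by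
      intro l hl
      unfold hgp
      rw [clB ω l hl, hval ω l _ hl (dgB ω l hl).1 (dgB ω l hl).2]
    rw [lhs]
    refine key.trans ?_
    congr 1
    · refine Finset.sum_congr rfl fun l hl => ?_
      rw [rhs l (Finset.mem_range.1 hl)]
    · show (coeff 0 ((z' (slam F ⌊v * J⌋₊ ω)).2.1 i) +
          coeff (Finsupp.single none 1) ((z' (slam F ⌊v * J⌋₊ ω)).2.1 i) * F.t ω -
          (if h : (i : ℕ) < 3 then coeff 0 ((z' (slam F ⌊v * J⌋₊ ω)).1 ⟨i, h⟩) +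
          coeff (Finsupp.single none 1) ((z' (slam F ⌊v * J⌋₊ ω)).1 ⟨i, h⟩) * F.t ω else 0) +
          (if i = 1 then _ else 0)) + (coe1 (c 0) ((z' (slam F ⌊v * J⌋₊ ω)).2.1 i) -
          (if h : (i : ℕ) < 3 then coe1 (c 0) ((z' (slam F ⌊v * J⌋₊ ω)).1 ⟨i, h⟩) else 0) +
          (if i = 1 then _ else 0)) * F.x ω (c 0) = _
      rw [dif_pos hi, dif_pos hi]
      by_cases h1 : i = 1
      · simp only [if_pos h1]
        ring
      · simp only [if_neg h1]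
        ring
  · -- the velocities over the frame
    intro ω hω i
    have hi := i.2
    have key := cmb_alg (X := fun l => F.d ω (c l))
      (aA := fun l => if h : l < 3 then
        coeff (Finsupp.single none 1) ((z' (slam F ⌊v * J⌋₊ ω)).1 ⟨l, h⟩) else 0)
      (aL := fun l => coeff (Finsupp.single none 1) ((z' (slam F ⌊v * J⌋₊ ω)).2.1 l))
      (la := fun l j => coe1 (c j) ((z' (slam F ⌊v * J⌋₊ ω)).2.1 l))
      (ab := fun l j => if h : l < 3 then coe1 (c j) ((z' (slam F ⌊v * J⌋₊ ω)).1 ⟨l, h⟩) else 0)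
      (k := coe1 (c 1) ((z' (slam F ⌊v * J⌋₊ ω)).2.1 1) -
        coe1 (c 1) ((z' (slam F ⌊v * J⌋₊ ω)).1 1)) rfl (by
          show coe1 (c 1) ((z' (slam F ⌊v * J⌋₊ ω)).2.1 2) =
            coe1 (c 1) ((z' (slam F ⌊v * J⌋₊ ω)).1 2)
          rw [v1, v2, if_neg (by norm_num)]
          exact hco ω hω 1 (Or.inl rfl)) (by
          show coe1 (c 2) ((z' (slam F ⌊v * J⌋₊ ω)).2.1 2) =
            coe1 (c 2) ((z' (slam F ⌊v * J⌋₊ ω)).1 2)
          rw [v1, v2, if_neg (by norm_num)]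
          exact hco ω hω 2 (Or.inr rfl)) i
    have lhs : fV F c w Fr ω i = F.d ω (c (1 + i)) -
        ((if h : (i : ℕ) < 3 then
          coeff (Finsupp.single none 1) ((z' (slam F ⌊v * J⌋₊ ω)).1 ⟨i, h⟩) else 0) +
        ∑ j ∈ range (1 + i), (if h : (i : ℕ) < 3 then
          coe1 (c j) ((z' (slam F ⌊v * J⌋₊ ω)).1 ⟨i, h⟩) else 0) * F.d ω (c j)) := by
      unfold fV
      rw [ojet_vlp]
      unfold vlp
      rw [dif_pos hi, hvel ω i _ hi (dgA ω i).1 (dgA ω i).2]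
      congr 2
      · rw [v1]
      · refine Finset.sum_congr rfl fun j _ => ?_
        rw [dif_pos hi, v1]
    have rhs : ∀ l < 3, vlp F (c (1 + l)) (cln c (1 + l) ((z' (slam F ⌊v * J⌋₊ ω)).2.1 l)) ω =
        F.d ω (c (1 + l)) - (coeff (Finsupp.single none 1) ((z' (slam F ⌊v * J⌋₊ ω)).2.1 l) +
          ∑ j ∈ range (1 + l), coe1 (c j) ((z' (slam F ⌊v * J⌋₊ ω)).2.1 l) * F.d ω (c j)) := by
      intro l hl
      unfold vlp
      rw [clB ω l hl, hvel ω l _ hl (dgB ω l hl).1 (dgB ω l hl).2]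
    rw [lhs]
    refine key.trans ?_
    congr 1
    · refine Finset.sum_congr rfl fun l hl => ?_
      rw [rhs l (Finset.mem_range.1 hl)]
    · show (coeff (Finsupp.single none 1) ((z' (slam F ⌊v * J⌋₊ ω)).2.1 i) -
          (if h : (i : ℕ) < 3 then
          coeff (Finsupp.single none 1) ((z' (slam F ⌊v * J⌋₊ ω)).1 ⟨i, h⟩) else 0) +
          (if i = 1 then _ else 0)) + (coe1 (c 0) ((z' (slam F ⌊v * J⌋₊ ω)).2.1 i) -
          (if h : (i : ℕ) < 3 then coe1 (c 0) ((z' (slam F ⌊v * J⌋₊ ω)).1 ⟨i, h⟩) else 0) +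
          (if i = 1 then _ else 0)) * F.d ω (c 0) = _
      rw [dif_pos hi, dif_pos hi]
  · -- the slopes
    intro ω hω i
    show |coe1 (c 0) ((z' (slam F ⌊v * J⌋₊ ω)).2.1 i) -
      coe1 (c 0) ((z' (slam F ⌊v * J⌋₊ ω)).1 i) + if i = 1 then
        (coe1 (c 1) ((z' (slam F ⌊v * J⌋₊ ω)).2.1 1) - coe1 (c 1) ((z' (slam F ⌊v * J⌋₊ ω)).1 1)) *
          coe1 (c 0) ((z' (slam F ⌊v * J⌋₊ ω)).2.1 0) else 0| ≤
      2 ^ ((sn 0 v - sn (1 + i) t + ε) * J)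
    rw [v1, v1]
    fin_cases i
    · show |coe1 (c 0) ((z' (slam F ⌊v * J⌋₊ ω)).2.1 0) -
        coe1 (c 0) (Fr.G 0 (Fr.z' 0 (slam F (w 0) ω))) + 0| ≤ 2 ^ ((sn 0 v - sn 1 t + ε) * J)
      rw [add_zero]
      exact (r10 ω hω).trans (E_mono J (by linarith))
    · show |coe1 (c 0) ((z' (slam F ⌊v * J⌋₊ ω)).2.1 1) -
        coe1 (c 0) (Fr.G 1 (Fr.z' 1 (slam F (w 1) ω))) +
          (coe1 (c 1) ((z' (slam F ⌊v * J⌋₊ ω)).2.1 1) -
          coe1 (c 1) (Fr.G 1 (Fr.z' 1 (slam F (w 1) ω)))) *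
          coe1 (c 0) ((z' (slam F ⌊v * J⌋₊ ω)).2.1 0)| ≤ 2 ^ ((sn 0 v - sn 2 t + ε) * J)
      exact (r2 ω hω).2.trans (E_mono J (by linarith))
    · show |coe1 (c 0) ((z' (slam F ⌊v * J⌋₊ ω)).2.1 2) -
        coe1 (c 0) (Fr.G 2 (Fr.z' 2 (slam F (w 2) ω))) + 0| ≤ 2 ^ ((sn 0 v - sn 3 t + ε) * J)
      rw [add_zero, v2, if_neg (by norm_num), ← coe1_sub]
      have k1 : (∀ l, 1 ≤ l → l < 3 → coe1 (c l) (GT (zT' (slam F ⌊v * J⌋₊ ω)) -
          Fr.G 2 (Fr.z' 2 (slam F (w 2) ω))) = 0) → |coe1 (c 0) (GT (zT' (slam F ⌊v * J⌋₊ ω)) -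
          Fr.G 2 (Fr.z' 2 (slam F (w 2) ω)))| ≤ 2 ^ ((ε₂ + sn 0 v) * J) * (q + q') :=
        (hok ω hω).2.2
      refine (k1 fun l h1 h2 => ?_).trans hq
      rw [coe1_sub, hco ω hω l (by omega), sub_self]
  · -- the raw slopes
    intro ω hω l hl o
    show |coeff (Finsupp.single o 1) (cln c (1 + l) ((z' (slam F ⌊v * J⌋₊ ω)).2.1 l))| ≤ _
    rw [clB ω l hl, v2]
    have k1 : |coeff (Finsupp.single o 1) (if (1 + l : ℕ) ≤ 2 then
        HB (slam F ⌊v * J⌋₊ ω) (1 + l) else GT (zT' (slam F ⌊v * J⌋₊ ω)))| ≤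
        2 ^ ((R - sn (1 + l) v + ε₂) * J) := (hok ω hω).1 (1 + l) (by omega) (by omega) o
    have k2 : (if (1 + l : ℕ) ≤ 2 then HB (slam F ⌊v * J⌋₊ ω) (1 + l) else
        GT (zT' (slam F ⌊v * J⌋₊ ω))) = if l < 2 then HB (slam F ⌊v * J⌋₊ ω) (1 + l) else
        GT (zT' (slam F ⌊v * J⌋₊ ω)) := by
      by_cases h : l < 2
      · rw [if_pos (by omega), if_pos h]
      · rw [if_neg (by omega), if_neg h]
    rw [k2] at k1
    exact k1.trans (E_mono J (by linarith))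
  · -- the position of `c 0`
    intro ω hω
    show |F.x ω (c 0) - eval (tpt m J (F.T ω)) (G0 (z' (slam F ⌊v * J⌋₊ ω)).2.2)| ≤ _
    rw [v3]
    have k1 := hl0.pos ω hω
    rw [hl0.dep _ (bt F ω) (tpt m J (F.T ω)) rfl (fun i hi => absurd hi (Finset.notMem_empty i))] at k1
    exact k1.trans hP0

end Pool.T4J
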