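import Pool.Agent.H4.D1.Lbq
import Pool.Agent.H91.T4.Af0
import Pool.Agent.H4.T4.Frd
import Pool.Agent.H92.V0F.Lbf

/-!
# Raw slopes of affine labels

`raw_alg`: the slopes of affine labels which are near labels of bounded slopes. `raw_none`: the slope in
time. `raw_cls`: the class level.
-/

set_option autoImplicit false

namespace Pool.T4J

open Finset Real MvPolynomial
open Pool.Agent.H49.Ent Pool.Agent.H32.Dense Pool.STK Pool.KA Pool.KSAT Pool.K2S Pool.PB Pool.S6C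
open Pool.GEN Pool.CHT Pool.CHX Pool.ISO
open Pool.D2R Pool.GF64
open Pool.D2F2 (hgp vlp ojet_hgp ojet_vlp)
open Pool.RCD Pool.LA91
open Pool.GRD (LbP)
open Pool.BFL (Pb)
open Pool.LIV (Pb_mono25 Pb_or25 Pb_ex25)
open Pool.GRW (tmc_bas)
open Pool.AVG57 (upw upw_slam)
open Pool.FVL91 (coe1 eval_one)
open Pool.V0F (LbE)

variable {m : ℕ}

/-! ### Coefficients of affine polynomials -/

/-- The coefficient in the direction `o`. -/
theorem dd_coe {G : MvPolynomial (Option (Fin m)) ℝ} (hG : G.totalDegree ≤ 1)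
    (x : Option (Fin m) → ℝ) (o : Option (Fin m)) :
    dd G x (Pi.single o 1) = coeff (Finsupp.single o 1) G := by
  have h1 := ev_aff hG 0 (Pi.single o 1)
  have e1 : (fun p : Option (Fin m) => (Pi.single o 1 : Option (Fin m) → ℝ) p -
      (0 : Option (Fin m) → ℝ) p) = Pi.single o 1 := by
    funext p
    simp
  rw [e1, eval_one hG, eval_one hG] at h1
  have e2 : ∑ p, coeff (Finsupp.single p 1) G * (Pi.single o 1 : Option (Fin m) → ℝ) p =
      coeff (Finsupp.single o 1) G := by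
    rw [Finset.sum_eq_single o]
    · rw [Pi.single_eq_same, mul_one]
    · intro p _ hp
      rw [Pi.single_eq_of_ne hp, mul_zero]
    · intro h
      exact absurd (Finset.mem_univ o) h
  have e3 : ∑ p, coeff (Finsupp.single p 1) G * (0 : Option (Fin m) → ℝ) p = 0 := by simp
  rw [e2, e3] at h1
  rw [dd_aff hG x 0]
  linarith

/-- The derivative of an affine polynomial. -/
theorem dd_sum1 {G : MvPolynomial (Option (Fin m)) ℝ} (hG : G.totalDegree ≤ 1)
    (x V : Option (Fin m) → ℝ) : dd G x V = ∑ o, coeff (Finsupp.single o 1) G * V o := by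
  have h1 := ev_aff hG 0 V
  have e1 : (fun p : Option (Fin m) => V p - (0 : Option (Fin m) → ℝ) p) = V := by
    funext p
    simp
  rw [e1, eval_one hG, eval_one hG] at h1
  have e3 : ∑ p, coeff (Finsupp.single p 1) G * (0 : Option (Fin m) → ℝ) p = 0 := by simp
  rw [e3] at h1
  rw [dd_aff hG x 0]
  linarith

/-- The coefficients of other coordinates vanish. -/
theorem coe_out {c : ℕ → Fin m} {i : ℕ} {G : MvPolynomial (Option (Fin m)) ℝ}
    (hG : G.totalDegree ≤ 1) (hd : DepC c i G) {k : Fin m} (hk : ∀ l < i, c l ≠ k) :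
    coeff (Finsupp.single (some k) 1) G = 0 := by
  rw [← dd_coe hG 0]
  refine dd_zero hd ?_ fun l hl => ?_
  · exact Pi.single_eq_of_ne (by simp) _
  · exact Pi.single_eq_of_ne (fun e => hk l hl (Option.some.inj e)) _

/-- The derivative of an affine polynomial over the places below `i`. -/
theorem dd_low {c : ℕ → Fin m} {i : ℕ} (hc : Set.InjOn c (Set.Iio i))
    {G : MvPolynomial (Option (Fin m)) ℝ} (hG : G.totalDegree ≤ 1) (hd : DepC c i G)
    (x V : Option (Fin m) → ℝ) : dd G x V = coeff (Finsupp.single none 1) G * V none +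
      ∑ j ∈ range i, coe1 (c j) G * V (some (c j)) := by
  rw [dd_sum1 hG, Fintype.sum_option]
  congr 1
  have e1 : ∑ k : Fin m, coeff (Finsupp.single (some k) 1) G * V (some k) =
      ∑ k ∈ (range i).image c, coeff (Finsupp.single (some k) 1) G * V (some k) := by
    symm
    refine Finset.sum_subset (Finset.subset_univ _) fun k _ hk => ?_
    rw [coe_out hG hd fun l hl e => hk (Finset.mem_image.2 ⟨l, Finset.mem_range.2 hl, e⟩), zero_mul]
  rw [e1, Finset.sum_image]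
  · rfl
  · intro a ha b hb e
    exact hc (Finset.mem_range.1 ha) (Finset.mem_range.1 hb) e

/-! ### The slopes -/

/-- **The slopes of affine labels near labels of bounded slopes.** -/
theorem raw_alg {c : ℕ → Fin m} {n : ℕ} (hc : Set.InjOn c (Set.Iio (n + 1)))
    {T g : ℕ → MvPolynomial (Option (Fin m)) ℝ} {x : Option (Fin m) → ℝ} {A M : ℝ} {w : ℕ → ℝ}
    (hT : ∀ l, 1 ≤ l → l ≤ n → (T l).totalDegree ≤ 1 ∧ DepC c l (T l)) (hA : 1 ≤ A)
    (hw : ∀ l ≤ n, 0 < w l) (hwM : ∀ l ≤ n, w l ≤ M)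
    (hd : ∀ i, 1 ≤ i → i ≤ n → ∀ W : Option (Fin m) → ℝ, W none = 0 →
      |dd (T i - g i) x W| ≤ A / w i * ∑ l ∈ range i, w l * |Pool.T4J.cmp c T x W l|)
    (hg : ∀ i, 1 ≤ i → i ≤ n → ∀ j < i,
      |dd (g i) x (Pi.single (some (c j)) 1)| ≤ A * M / w i) (i : ℕ) :
    1 ≤ i → i ≤ n → ∀ j < i, |coe1 (c j) (T i)| ≤ (4 * A) ^ i * M / w i := by
  have hM : 0 < M := (hw 0 (Nat.zero_le _)).trans_le (hwM 0 (Nat.zero_le _))
  induction i using Nat.strong_induction_on with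
  | _ i ih =>
    intro h1 h2 j hj
    have hwi := hw i h2
    obtain ⟨W, hW⟩ : ∃ W : Option (Fin m) → ℝ, W = Pi.single (some (c j)) 1 := ⟨_, rfl⟩
    have hW0 : W none = 0 := by
      rw [hW]
      exact Pi.single_eq_of_ne (by simp) _
    have k1 := hd i h1 h2 W hW0
    have k2 := hg i h1 h2 j hj
    rw [← hW] at k2
    have hcoe : ∀ l, 1 ≤ l → l ≤ n → dd (T l) x W = coe1 (c j) (T l) := fun l a b => by
      rw [hW]
      exact dd_coe (hT l a b).1 x _
    -- the components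
    have hcmp : ∀ l < i, w l * |Pool.T4J.cmp c T x W l| ≤ (4 * A) ^ l * M := by
      intro l hl
      have hwl := hw l (by omega)
      have hp1 : (1 : ℝ) ≤ (4 * A) ^ l := one_le_pow₀ (by linarith)
      have hbig : w l * 1 ≤ (4 * A) ^ l * M := by
        rw [mul_one]
        exact (hwM l (by omega)).trans (le_mul_of_one_le_left hM.le hp1)
      have hWl : W (some (c l)) = if l = j then 1 else 0 := by
        rw [hW]
        split_ifs with h3
        · rw [h3, Pi.single_eq_same]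
        · refine Pi.single_eq_of_ne (fun e => h3 ?_) _
          exact hc (Set.mem_Iio.2 (by omega)) (Set.mem_Iio.2 (by omega)) (Option.some.inj e)
      rcases Nat.eq_zero_or_pos l with h3 | h3
      · have e1 : Pool.T4J.cmp c T x W l = if l = j then 1 else 0 := by
          unfold Pool.T4J.cmp
          rw [if_pos h3, ← hWl, h3]
        rw [e1]
        split_ifs
        · rw [abs_one]
          exact hbig
        · rw [abs_zero, mul_zero]
          positivity
      · have e1 : Pool.T4J.cmp c T x W l = (if l = j then 1 else 0) - coe1 (c j) (T l) := by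
          unfold Pool.T4J.cmp
          rw [if_neg (by omega), hWl, hcoe l h3 (by omega)]
        rw [e1]
        rcases Nat.lt_trichotomy j l with h4 | h4 | h4
        · rw [if_neg (by omega), zero_sub, abs_neg]
          have k3 := mul_le_mul_of_nonneg_left (ih l hl h3 (by omega) j h4) hwl.le
          refine k3.trans (le_of_eq ?_)
          field_simp
        · have e2 : coe1 (c j) (T l) = 0 := coe_out (hT l h3 (by omega)).1 (hT l h3 (by omega)).2
            fun l' hl' e => by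
              have := hc (Set.mem_Iio.2 (show l' < n + 1 by omega))
                (Set.mem_Iio.2 (show j < n + 1 by omega)) e
              omega
          rw [if_pos h4.symm, e2, sub_zero, abs_one]
          exact hbig
        · have e2 : coe1 (c j) (T l) = 0 := coe_out (hT l h3 (by omega)).1 (hT l h3 (by omega)).2
            fun l' hl' e => by
              have := hc (Set.mem_Iio.2 (show l' < n + 1 by omega))
                (Set.mem_Iio.2 (show j < n + 1 by omega)) e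
              omega
          rw [if_neg (by omega), e2, sub_zero, abs_zero, mul_zero]
          positivity
    have hsum : ∑ l ∈ range i, w l * |Pool.T4J.cmp c T x W l| ≤ (∑ l ∈ range i, (4 * A) ^ l) * M := by
      rw [Finset.sum_mul]
      exact Finset.sum_le_sum fun l hl => hcmp l (Finset.mem_range.1 hl)
    have hgeo : (∑ l ∈ range i, (4 * A) ^ l) * (3 * A) ≤ (4 * A) ^ i := by
      have e1 := geom_sum_mul (4 * A) i
      have e2 : (∑ l ∈ range i, (4 * A) ^ l) * (3 * A) ≤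
          (∑ l ∈ range i, (4 * A) ^ l) * (4 * A - 1) :=
        mul_le_mul_of_nonneg_left (by linarith) (Finset.sum_nonneg fun l _ => by positivity)
      linarith
    have hAi : 4 * A ≤ (4 * A) ^ i := by
      calc 4 * A = (4 * A) ^ 1 := (pow_one _).symm
        _ ≤ (4 * A) ^ i := pow_le_pow_right₀ (by linarith) h1
    have k4 : |dd (T i - g i) x W| ≤ (4 * A) ^ i / 3 * M / w i := by
      refine k1.trans ?_
      rw [div_mul_eq_mul_div]
      refine div_le_div_of_nonneg_right ?_ hwi.le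
      have e1 : A * ∑ l ∈ range i, w l * |Pool.T4J.cmp c T x W l| ≤
          A * ((∑ l ∈ range i, (4 * A) ^ l) * M) := mul_le_mul_of_nonneg_left hsum (by linarith)
      have e2 : A * ((∑ l ∈ range i, (4 * A) ^ l) * M) =
          (∑ l ∈ range i, (4 * A) ^ l) * (3 * A) / 3 * M := by ring
      have e3 : (∑ l ∈ range i, (4 * A) ^ l) * (3 * A) / 3 * M ≤ (4 * A) ^ i / 3 * M :=
        mul_le_mul_of_nonneg_right (by linarith) hM.le
      linarith
    have k5 : A * M / w i ≤ (4 * A) ^ i / 4 * M / w i :=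
      div_le_div_of_nonneg_right (mul_le_mul_of_nonneg_right (by linarith) hM.le) hwi.le
    have e1 : coe1 (c j) (T i) = dd (T i - g i) x W + dd (g i) x W := by
      rw [← hcoe i h1 h2, dd_sub]
      ring
    rw [e1]
    refine (abs_add_le _ _).trans ((add_le_add k4 (k2.trans k5)).trans ?_)
    rw [← add_div, ← add_mul]
    refine div_le_div_of_nonneg_right (mul_le_mul_of_nonneg_right ?_ hM.le) hwi.le
    have : (0 : ℝ) ≤ (4 * A) ^ i := by positivity
    linarith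

/-- **The slope in time**, from the velocity. -/
theorem raw_none {J : ℕ} {F : Fam m J} {c : ℕ → Fin m} {i : ℕ} (hc : Set.InjOn c (Set.Iio i))
    {G : MvPolynomial (Option (Fin m)) ℝ} (hG : G.totalDegree ≤ 1) (hd : DepC c i G) {ω : F.Ω}
    {B v : ℝ} (hB : ∀ j < i, |coe1 (c j) G| ≤ B) (hv : |vlp F (c i) G ω| ≤ v) :
    |coeff (Finsupp.single none 1) G| ≤ 1 + v + i * B := by
  have e1 := dd_low hc hG hd (bt F ω) (bd F ω)
  have e2 : bd F ω none = 1 := rfl
  have e3 : ∀ j, bd F ω (some (c j)) = F.d ω (c j) := fun _ => rfl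
  rw [e2, mul_one] at e1
  simp only [e3] at e1
  have e4 : vlp F (c i) G ω = F.d ω (c i) - dd G (bt F ω) (bd F ω) := rfl
  have e5 : |∑ j ∈ range i, coe1 (c j) G * F.d ω (c j)| ≤ i * B := by
    refine (Finset.abs_sum_le_sum_abs _ _).trans ((Finset.sum_le_sum fun j hj => ?_).trans
      (le_of_eq (by rw [Finset.sum_const, Finset.card_range, nsmul_eq_mul])))
    rw [abs_mul]
    have h1 := hB j (Finset.mem_range.1 hj)
    exact (mul_le_mul h1 (F.dir ω (c j)) (abs_nonneg _) ((abs_nonneg _).trans h1)).trans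
      (le_of_eq (mul_one _))
  have e6 : coeff (Finsupp.single none 1) G = F.d ω (c i) - vlp F (c i) G ω -
      ∑ j ∈ range i, coe1 (c j) G * F.d ω (c j) := by
    rw [e4, e1]
    ring
  have e7 := F.dir ω (c i)
  rw [e6]
  rw [abs_le] at hv e5 e7 ⊢
  constructor <;> linarith [hv.1, hv.2, e5.1, e5.2, e7.1, e7.2]

/-- **Raw slopes of affine closed labels** of the window `w`, on a part of every large event. -/
theorem raw_cls {S : PCl m}
    (hpos : ∀ (τ : ℝ) (J : ℕ) (F : Fam m J) (A : F.Ω → Prop), S.St τ J F A → 0 < Pe F.p A)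
    {C₀ : ℝ} (htm : TmC S C₀) {c : ℕ → Fin m} {d n : ℕ} {sn : ℕ → ℝ → ℝ}
    {G : Set ℝ} (hch : ChG S c d sn G) (hnd : n ≤ d) (hc : Set.InjOn c (Set.Iio (n + 1)))
    {w : ℝ} (hw : w ∈ G) {D : ℕ} {E rd : ℕ → ℝ}
    (hbox : ∀ e : ℝ, 0 < e → Bas S (fun J F A => ∃ (V : Type) (z : PtT F → V) (z' : LnT F → V)
      (g : V → ℕ → MvPolynomial (Option (Fin m)) ℝ),
      LbE F c (n + 1) D E e w rd (fun l => sn l w) A z z' g))
    {R : ℝ} (hE0 : ∀ l ≤ n, 0 ≤ E l) (hER : ∀ l ≤ n, sn l w + E l ≤ R) (hwR : w ≤ R)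
    {θ : ℝ} (hθ : 0 ≤ θ) {ε : ℝ} (hε : 0 < ε) {η : ℝ} (hη : 0 < η) :
    Bas S (fun J F A => ∀ (Q : ℕ → ℕ) (V : ℕ → Type) (y : ∀ l, PtT F → V l)
      (y' : ∀ l, LnT F → V l) (T : ∀ l, V l → MvPolynomial (Option (Fin m)) ℝ),
      (∀ l, 1 ≤ l → l ≤ n →
        LbP F ((range l).image c) (c l) 1 J ⌊w * J⌋₊ (Q l) A (y l) (y' l) (T l)) →
      (∀ l, 1 ≤ l → l ≤ n → (1 : ℝ) / 2 ^ Q l ≤ 2 * 2 ^ (-(sn l w - θ) * J)) →
      Pb (Pool.Agent.H49.Ent.cond F.p A True) (fun ω => ¬ ∀ l, 1 ≤ l → l ≤ n →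
        ∀ o, |coeff (Finsupp.single o 1) (T l (y' l (slam F ⌊w * J⌋₊ ω)))| ≤
          2 ^ ((R - sn l w + ε + n * ((n + 1) * θ)) * J)) ≤ η) := by
  classical
  have hn0 : (0 : ℝ) ≤ n := Nat.cast_nonneg n
  obtain ⟨ε₁, hε₁⟩ : ∃ ε₁ : ℝ, ε₁ = ε / (4 * (n + 1)) := ⟨_, rfl⟩
  have hε10 : 0 < ε₁ := by rw [hε₁]; positivity
  have hε11 : 2 * ((n : ℝ) + 1) * ε₁ = ε / 2 := by
    rw [hε₁]
    field_simp
    ring
  obtain ⟨η', hη'⟩ : ∃ η' : ℝ, η' = η / (2 * (n + 1)) := ⟨_, rfl⟩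
  have hη0 : 0 < η' := by rw [hη']; positivity
  have hη1 : 2 * ((n : ℝ) + 1) * η' = η := by
    rw [hη']
    field_simp
  obtain ⟨J₁, hJ₁⟩ := E_big (a := ε / 2) (C := ((n : ℝ) + 2) * 16 ^ n) (by linarith)
  obtain ⟨u₁, rd', -, hchn⟩ := hch.ch w hw
  have hw0 : 0 ≤ w := hchn.w0
  have hw1 : w < 1 := hchn.u0
  have hs : ∀ l ≤ n, sn l w ≤ R := fun l hl => by linarith [hE0 l hl, hER l hl]
  -- the bases
  have b1 : Bas S (fun J F A => ∀ i < n + 1, 1 ≤ i → ∀ (P₁ P₂ : ℕ) (Q : ℕ → ℕ) (V : ℕ → Type)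
      (V₁ V₂ : Type) (y : ∀ l, PtT F → V l) (y' : ∀ l, LnT F → V l)
      (T : ∀ l, V l → MvPolynomial (Option (Fin m)) ℝ)
      (z₁ : PtT F → V₁) (z₁' : LnT F → V₁) (G₁ : V₁ → MvPolynomial (Option (Fin m)) ℝ)
      (z₂ : PtT F → V₂) (z₂' : LnT F → V₂) (G₂ : V₂ → MvPolynomial (Option (Fin m)) ℝ),
      (∀ l, 1 ≤ l → l < i →
        LbP F ((range l).image c) (c l) (max 1 D) J ⌊w * J⌋₊ (Q l) A (y l) (y' l) (T l)) →
      (∀ l, 1 ≤ l → l < i → (1 : ℝ) / 2 ^ Q l ≤ 2 * 2 ^ (-(sn l w - θ) * J)) →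
      LbP F ((range i).image c) (c i) (max 1 D) J ⌊w * J⌋₊ P₁ A z₁ z₁' G₁ →
      LbP F ((range i).image c) (c i) (max 1 D) J ⌊w * J⌋₊ P₂ A z₂ z₂' G₂ →
      Pb (Pool.Agent.H49.Ent.cond F.p A True) (fun ω =>
        ¬ ∀ W : Option (Fin m) → ℝ, W none = 0 →
          |dd (G₁ (z₁' (slam F ⌊w * J⌋₊ ω)) - G₂ (z₂' (slam F ⌊w * J⌋₊ ω))) (bt F ω) W| ≤
            2 ^ ((ε₁ + i * θ) * J) * (1 / 2 ^ P₁ + 1 / 2 ^ P₂) *
              ∑ l ∈ range i, 2 ^ (sn l w * J) *
                |Pool.T4J.cmp c (fun l => T l (y' l (slam F ⌊w * J⌋₊ ω))) (bt F ω) W l|) ≤ η') := by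
    refine Bas.all (n + 1) fun i hi => ?_
    by_cases hi1 : 1 ≤ i
    · refine Bas.mono 0 (dd_cls htm (hchn.take (Nat.zero_le i) (by omega)) hi1 hθ hε10
        (max 1 D) hη0) ?_
      exact fun J _ F A h _ => h (c i)
    · exact ⟨1, one_pos, 0, fun _ _ _ _ _ h => absurd h hi1⟩
  have b2 : Bas S (fun J F A => ∀ l < n + 1, ∀ (P : ℕ) (V : Type) (z : PtT F → V) (z' : LnT F → V)
      (G : V → MvPolynomial (Option (Fin m)) ℝ),
      LbP F ((range l).image c) (c l) 1 J ⌊w * J⌋₊ P A z z' G →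
      Pb (Pool.Agent.H49.Ent.cond F.p A True) (fun ω =>
        ¬ |ojet F (c l) 1 (G (z' (slam F ⌊w * J⌋₊ ω))) ω| ≤
          2 ^ ((ε₁ + (1 : ℕ) * w) * J) * (1 / 2 ^ P)) ≤ η') :=
    Bas.all _ fun l _ => own_cls htm ((range l).image c) (c l) 1 1 hw0 hw1 hη0 hε10
  refine Bas.mono (J₁ + 1) (((b1.and b2).and (hbox ε₁ hε10)).and
    ⟨1, one_pos, 0, fun J _ F A hA => hpos 1 J F A hA⟩) ?_
  rintro J hJ F A ⟨⟨⟨hdd, how⟩, V₂, z₂, z₂', g, hg⟩, hA⟩ Q V y y' T hT hQ
  have hJ0 : (0 : ℝ) ≤ J := Nat.cast_nonneg J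
  have f1 := hJ₁ J (by omega)
  have h0 := (isLaw_cond F.isLaw hA).nonneg
  -- the bad events
  obtain ⟨bad1, hbad1⟩ : ∃ bad1 : ℕ → F.Ω → Prop, bad1 = fun i ω => 1 ≤ i ∧
    ¬ ∀ W : Option (Fin m) → ℝ, W none = 0 →
        |dd (T i (y' i (slam F ⌊w * J⌋₊ ω)) - g (z₂' (slam F ⌊w * J⌋₊ ω)) i) (bt F ω) W| ≤
          2 ^ ((ε₁ + i * θ) * J) * (1 / 2 ^ Q i + 1 / 2 ^ ⌊(sn i w - ε₁) * J⌋₊) *
            ∑ l ∈ range i, 2 ^ (sn l w * J) *
              |Pool.T4J.cmp c (fun l => T l (y' l (slam F ⌊w * J⌋₊ ω))) (bt F ω) W l| := ⟨_, rfl⟩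
  obtain ⟨bad2, hbad2⟩ : ∃ bad2 : ℕ → F.Ω → Prop, bad2 = fun i ω => 1 ≤ i ∧
    ¬ |ojet F (c i) 1 (T i (y' i (slam F ⌊w * J⌋₊ ω))) ω| ≤
      2 ^ ((ε₁ + (1 : ℕ) * w) * J) * (1 / 2 ^ Q i) := ⟨_, rfl⟩
  have hfalse : ∀ E : F.Ω → Prop, (∀ ω, ¬ E ω) →
      Pb (Pool.Agent.H49.Ent.cond F.p A True) E ≤ η' := by
    intro E hE
    refine le_trans (Pb_mono25 h0 (B := fun _ => False) fun ω hω hb => hE ω hb)
      (le_of_eq_of_le ?_ hη0.le)
    unfold Pb
    simp
  have hP1 : ∀ i < n + 1, Pb (Pool.Agent.H49.Ent.cond F.p A True) (bad1 i) ≤ η' := by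
    intro i hi
    by_cases hi1 : 1 ≤ i
    · have k1 := hdd i hi hi1 (Q i) ⌊(sn i w - ε₁) * J⌋₊ Q V _ _ y y' T _ _ _ _ _ _
        (fun l h1 h2 => (hT l h1 (by omega)).mono (Finset.Subset.refl _) (le_max_left _ _) le_rfl)
        (fun l h1 h2 => hQ l h1 (by omega))
        ((hT i hi1 (by omega)).mono (Finset.Subset.refl _) (le_max_left _ _) le_rfl)
        ((LbP.of (hg i hi)).mono (Finset.Subset.refl _) (le_max_right _ _) le_rfl)
      refine le_trans (Pb_mono25 h0 fun ω hω hb => ?_) k1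
      rw [hbad1] at hb
      exact hb.2
    · refine hfalse _ fun ω hb => ?_
      rw [hbad1] at hb
      exact hi1 hb.1
  have hP2 : ∀ i < n + 1, Pb (Pool.Agent.H49.Ent.cond F.p A True) (bad2 i) ≤ η' := by
    intro i hi
    by_cases hi1 : 1 ≤ i
    · have k1 := how i hi (Q i) _ _ _ _ (hT i hi1 (by omega))
      refine le_trans (Pb_mono25 h0 fun ω hω hb => ?_) k1
      rw [hbad2] at hb
      exact hb.2
    · refine hfalse _ fun ω hb => ?_
      rw [hbad2] at hb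
      exact hi1 hb.1
  have hPB : Pb (Pool.Agent.H49.Ent.cond F.p A True)
      (fun ω => (∃ i < n + 1, bad1 i ω) ∨ ∃ i < n + 1, bad2 i ω ∨ ¬ A ω) ≤ η := by
    have c0 : Pb (Pool.Agent.H49.Ent.cond F.p A True) (fun ω => ¬ A ω) ≤ 0 := by
      refine le_of_eq ?_
      unfold Pb
      refine Finset.sum_eq_zero fun ω _ => ?_
      by_cases h : A ω
      · rw [if_neg (not_not.2 h)]
      · have h1 : ¬ 0 < Pool.Agent.H49.Ent.cond F.p A True ω := fun h2 => by
          have h3 := ((cond_pos_iff F.isLaw.nonneg A True ω).1 h2).2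
          exact h (by simpa using h3)
        have h2 : Pool.Agent.H49.Ent.cond F.p A True ω = 0 := le_antisymm (not_lt.1 h1) (h0 ω)
        rw [h2]
        simp
    have c1 := Pb_ex25 h0 (fun i ω => bad1 i ω) (n + 1) fun i hi => hP1 i hi
    have c2 := Pb_ex25 h0 (fun i ω => bad2 i ω ∨ ¬ A ω) (n + 1) fun i hi =>
      (Pb_or25 h0 _ _).trans (add_le_add (hP2 i hi) c0)
    refine (Pb_or25 h0 _ _).trans ?_
    push_cast at c1 c2
    linarith
  refine le_trans (Pb_mono25 h0 fun ω hω hn => ?_) hPB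
  by_contra hgood
  push Not at hgood
  obtain ⟨hg1, hg2⟩ := hgood
  refine hn fun i hi1 hi2 o => ?_
  have hAω : A ω := by
    have := (hg2 i (by omega)).2
    exact this
  -- the point
  obtain ⟨L, hL⟩ : ∃ L : ℕ → MvPolynomial (Option (Fin m)) ℝ,
    L = fun l => T l (y' l (slam F ⌊w * J⌋₊ ω)) := ⟨_, rfl⟩
  have hLe : ∀ l, T l (y' l (slam F ⌊w * J⌋₊ ω)) = L l := fun l => by rw [hL]
  have hLd : ∀ l, 1 ≤ l → l ≤ n → (L l).totalDegree ≤ 1 ∧ DepC c l (L l) := fun l h1 h2 => by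
    rw [← hLe]
    refine ⟨(hT l h1 h2).deg _, fun b b' e1 e2 => (hT l h1 h2).dep _ b b' e1 fun k hk => ?_⟩
    obtain ⟨l', hl', rfl⟩ := mem_image.1 hk
    exact e2 l' (mem_range.1 hl')
  obtain ⟨A₀, hA₀⟩ : ∃ A₀ : ℝ, A₀ = 4 * 2 ^ ((2 * ε₁ + (n + 1) * θ) * J) := ⟨_, rfl⟩
  have hnθ : 0 ≤ ((n : ℝ) + 1) * θ := by positivity
  have hA1 : 4 ≤ A₀ := by
    have := E_one (J := J) (a := 2 * ε₁ + (n + 1) * θ) (by positivity)
    rw [hA₀]
    linarith
  have hwi : ∀ x : ℝ, (1 : ℝ) / 2 ^ (x * J) = 2 ^ (-x * J) := fun x => by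
    rw [neg_mul, Real.rpow_neg (by norm_num), one_div]
  have hdiv : ∀ a x : ℝ, a / (2 : ℝ) ^ (x * J) = a * 2 ^ (-x * J) := fun a x => by
    rw [← hwi]
    ring
  have key := raw_alg (n := n) hc (T := L) (g := g (z₂' (slam F ⌊w * J⌋₊ ω))) (x := bt F ω)
    (A := A₀) (M := 2 ^ (R * J)) (w := fun l => 2 ^ (sn l w * J)) hLd (by linarith)
    (fun l _ => E_pos J _) (fun l hl => E_mono J (hs l hl)) (fun i h1 h2 W hW => by
      have a1 := hg1 i (by omega)
      rw [hbad1] at a1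
      have a2 := not_and.1 a1 h1
      push Not at a2
      have a3 := a2 W hW
      rw [hLe, ← hL] at a3
      refine a3.trans (mul_le_mul_of_nonneg_right ?_ (Finset.sum_nonneg fun l _ =>
        mul_nonneg (E_pos J _).le (abs_nonneg _)))
      have a4 := hQ i h1 h2
      have a5 := prec_le (J := J) (p := sn i w) (e := ε₁) (x := sn i w - ε₁) le_rfl
      rw [hdiv, hA₀]
      have hin : (i : ℝ) ≤ n := by exact_mod_cast h2
      have a6 := E_mono J (show ε₁ + i * θ + -(sn i w - θ) ≤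
        2 * ε₁ + (n + 1) * θ + -sn i w by
          have := mul_le_mul_of_nonneg_right hin hθ
          linarith)
      have a7 := E_mono J (show ε₁ + i * θ + -(sn i w - ε₁) ≤
        2 * ε₁ + (n + 1) * θ + -sn i w by
          have := mul_le_mul_of_nonneg_right hin hθ
          linarith)
      rw [← E_add, ← E_add _ (2 * ε₁ + (n + 1) * θ)] at a6 a7
      have a8 := mul_le_mul_of_nonneg_left (add_le_add a4 a5) (E_pos J (ε₁ + i * θ)).le
      linarith)
    (fun i h1 h2 j hj => by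
      have a1 := (hg i (by omega)).lip ω hAω (bt F ω) (fun o => by
        rw [sub_self, abs_zero]
        positivity) (some (c j))
      have a2 : dd (g (z₂' (slam F ⌊w * J⌋₊ ω)) i) (bt F ω) (Pi.single (some (c j)) 1) =
          eval (bt F ω) (pderiv (some (c j)) (g (z₂' (slam F ⌊w * J⌋₊ ω)) i)) := by
        unfold dd
        rw [Finset.sum_eq_single (some (c j))]
        · rw [Pi.single_eq_same, mul_one]
        · intro p _ hp
          rw [Pi.single_eq_of_ne hp, mul_zero]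
        · intro h
          exact absurd (Finset.mem_univ _) h
      rw [a2]
      refine a1.trans ?_
      have a3 : (2 : ℝ) ^ ⌊(E i + ε₁) * J⌋₊ ≤ 2 ^ ((E i + ε₁) * J) :=
        (rp_fl (mul_nonneg (by linarith [hE0 i h2]) hJ0)).1
      refine a3.trans ?_
      rw [hdiv, hA₀, mul_assoc, mul_assoc, E_add, E_add]
      have a4 := E_mono J (show E i + ε₁ ≤ 2 * ε₁ + (n + 1) * θ + (R + -sn i w) by
        linarith [hER i h2])
      have a5 := E_pos J (2 * ε₁ + (n + 1) * θ + (R + -sn i w))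
      linarith)
  -- the bound
  have hMw : ∀ i ≤ n, (1 : ℝ) ≤ 2 ^ (R * J) / 2 ^ (sn i w * J) := fun i hi => by
    rw [le_div_iff₀ (E_pos J _), one_mul]
    exact E_mono J (hs i hi)
  have hAn : ∀ i, 1 ≤ i → i ≤ n → (4 * A₀) ^ i ≤ (4 * A₀) ^ n := fun i _ hi =>
    pow_le_pow_right₀ (by linarith) hi
  have hfin : ((n : ℝ) + 2) * (4 * A₀) ^ n * (2 ^ (R * J) / 2 ^ (sn i w * J)) ≤
      2 ^ ((R - sn i w + ε + n * ((n + 1) * θ)) * J) := by
    have e1 : (4 * A₀) ^ n = 16 ^ n * 2 ^ (n * (2 * ε₁ + (n + 1) * θ) * J) := by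
      have e2 : 4 * A₀ = 16 * 2 ^ ((2 * ε₁ + (n + 1) * θ) * J) := by
        rw [hA₀]
        ring
      rw [e2, mul_pow, E_pow]
    rw [e1, hdiv, E_add]
    have e3 : ((n : ℝ) + 2) * (16 ^ n * 2 ^ (n * (2 * ε₁ + (n + 1) * θ) * J)) *
        2 ^ ((R + -sn i w) * J) = ((n : ℝ) + 2) * 16 ^ n *
          (2 ^ (n * (2 * ε₁ + (n + 1) * θ) * J) * 2 ^ ((R + -sn i w) * J)) := by ring
    rw [e3, E_add]
    refine (mul_le_mul_of_nonneg_right f1 (E_pos J _).le).trans ?_
    rw [E_add]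
    refine E_mono J ?_
    have e4 : (n : ℝ) * (2 * ε₁ + (n + 1) * θ) = 2 * (n + 1) * ε₁ - 2 * ε₁ + n * ((n + 1) * θ) := by
      ring
    rw [e4, hε11]
    linarith
  have hbase : ∀ j < i, |coe1 (c j) (L i)| ≤ (4 * A₀) ^ n * (2 ^ (R * J) / 2 ^ (sn i w * J)) :=
    fun j hj => by
      have h1 := key i hi1 hi2 j hj
      rw [mul_div_assoc] at h1
      exact h1.trans (mul_le_mul_of_nonneg_right (hAn i hi1 hi2)
        (by linarith [hMw i hi2]))
  have hAp : 1 ≤ (4 * A₀) ^ n := one_le_pow₀ (by linarith)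
  have hAm : A₀ ≤ (4 * A₀) ^ n := by
    calc A₀ ≤ (4 * A₀) ^ 1 := by rw [pow_one]; linarith
      _ ≤ (4 * A₀) ^ n := pow_le_pow_right₀ (by linarith) (hi1.trans hi2)
  have hX := hMw i hi2
  obtain ⟨X, hXe⟩ : ∃ X : ℝ, X = 2 ^ (R * J) / 2 ^ (sn i w * J) := ⟨_, rfl⟩
  rw [← hXe] at hX hbase hfin
  obtain ⟨Y, hYe⟩ : ∃ Y : ℝ, Y = (4 * A₀) ^ n := ⟨_, rfl⟩
  rw [← hYe] at hAp hAm hbase hfin
  have hYX : 0 < Y * X := by positivity
  have hX1 : X ≤ Y * X := le_mul_of_one_le_left (by linarith) hAp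
  rw [hLe]
  refine le_trans ?_ hfin
  have hiR : (i : ℝ) ≤ n := by exact_mod_cast hi2
  cases o with
  | none =>
    have hv : |vlp F (c i) (L i) ω| ≤ Y * X := by
      have a1 := (hg2 i (by omega)).1
      rw [hbad2] at a1
      have a2 := not_and.1 a1 hi1
      push Not at a2
      rw [hLe, ojet_vlp] at a2
      refine a2.trans ?_
      have a4 := hQ i hi1 hi2
      have a5 := mul_le_mul_of_nonneg_left a4 (E_pos J (ε₁ + ((1 : ℕ) : ℝ) * w)).le
      refine a5.trans ?_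
      have a6 : (2 : ℝ) ^ ((ε₁ + ((1 : ℕ) : ℝ) * w) * J) * (2 * 2 ^ (-(sn i w - θ) * J)) =
          2 * (2 ^ ((ε₁ + ((1 : ℕ) : ℝ) * w) * J) * 2 ^ (-(sn i w - θ) * J)) := by ring
      rw [a6, E_add]
      have a7 := E_mono J (show ε₁ + ((1 : ℕ) : ℝ) * w + -(sn i w - θ) ≤
        2 * ε₁ + (n + 1) * θ + (R + -sn i w) by
          have : 0 ≤ (n : ℝ) * θ := mul_nonneg hn0 hθ
          push_cast
          linarith)
      have a8 : A₀ * X = 4 * 2 ^ ((2 * ε₁ + (n + 1) * θ + (R + -sn i w)) * J) := by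
        rw [hXe, hdiv, hA₀, mul_assoc, E_add, E_add]
      have a9 : A₀ * X ≤ Y * X := mul_le_mul_of_nonneg_right hAm (by linarith)
      have a10 := E_pos J (2 * ε₁ + (n + 1) * θ + (R + -sn i w))
      linarith
    have h1 := raw_none (hc.mono fun a ha => by
      rw [Set.mem_Iio] at ha ⊢
      omega) (hLd i hi1 hi2).1 (hLd i hi1 hi2).2 (B := Y * X) hbase hv
    have h2 : (i : ℝ) * (Y * X) ≤ n * (Y * X) := mul_le_mul_of_nonneg_right hiR hYX.le
    have e1 : ((n : ℝ) + 2) * Y * X = Y * X + (Y * X + n * (Y * X)) := by ring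
    rw [e1]
    linarith
  | some k =>
    have e1 : Y * X ≤ ((n : ℝ) + 2) * Y * X := by
      have e2 : ((n : ℝ) + 2) * Y * X = Y * X + (Y * X + n * (Y * X)) := by ring
      have e3 : 0 ≤ (n : ℝ) * (Y * X) := by positivity
      linarith
    by_cases hk : ∃ l < i, c l = k
    · obtain ⟨l, hl, rfl⟩ := hk
      exact (hbase l hl).trans e1
    · push Not at hk
      rw [coe_out (hLd i hi1 hi2).1 (hLd i hi1 hi2).2 hk, abs_zero]
      linarith

end Pool.T4J
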