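import Pool.Agent.H4.D1.Raw
import Pool.Agent.H64.D1.CS

/-!
# The labels of one window

`WinOk`: raw slopes, natural velocities, natural slopes of the difference of two labels of the target.
`win_cls`: on a part of every large event.
-/

set_option autoImplicit false

namespace Pool.T4J

open Finset Real MvPolynomial
open Pool.Agent.H49.Ent Pool.Agent.H32.Dense Pool.STK Pool.KA Pool.KSAT Pool.K2S Pool.PB Pool.S6C
open Pool.GEN Pool.CHT Pool.CHX Pool.ISO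
open Pool.D2R Pool.GF64
open Pool.D2F2 (hgp vlp ojet_hgp ojet_vlp)
open Pool.RCD Pool.LA91
open Pool.GRD (LbP)
open Pool.BFL (Pb)
open Pool.LIV (Pb_mono25 Pb_or25 Pb_ex25)
open Pool.GRW (tmc_bas)
open Pool.AVG57 (upw upw_slam)
open Pool.FVL91 (coe1 eval_one)
open Pool.V0F (LbE)

variable {m : ℕ}

/-- **Good labels at one sample.** `H`: the labels, `K`: another label of the target `c n`; `s`: the
levels; `ε`: the errors; `R`: the bound of the level and the slope; `q`, `q'`: the errors of the labels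
of the target. -/
def WinOk {J : ℕ} (F : Fam m J) (c : ℕ → Fin m) (n : ℕ) (w : ℝ) (s : ℕ → ℝ) (ε R q q' : ℝ)
    (H : ℕ → MvPolynomial (Option (Fin m)) ℝ) (K : MvPolynomial (Option (Fin m)) ℝ)
    (ω : F.Ω) : Prop :=
  (∀ l, 1 ≤ l → l ≤ n → ∀ o, |coeff (Finsupp.single o 1) (H l)| ≤ 2 ^ ((R - s l + ε) * J)) ∧
  (∀ l, 1 ≤ l → l ≤ n → |vlp F (c l) (H l) ω| ≤ 2 ^ ((ε + w - s l) * J)) ∧
  ((∀ l, 1 ≤ l → l < n → coe1 (c l) (H n - K) = 0) →
    |coe1 (c 0) (H n - K)| ≤ 2 ^ ((ε + s 0) * J) * (q + q'))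

/-- **The slope of the difference** in the direction of the first place. -/
theorem dif_alg {c : ℕ → Fin m} {n : ℕ} (hn : 1 ≤ n) (hc : Set.InjOn c (Set.Iio n))
    {T : ℕ → MvPolynomial (Option (Fin m)) ℝ} {E : MvPolynomial (Option (Fin m)) ℝ}
    {x : Option (Fin m) → ℝ} {A : ℝ} {w : ℕ → ℝ} (hA : 0 ≤ A)
    (hT : ∀ l, 1 ≤ l → l < n → DepC c l (T l)) (hE : E.totalDegree ≤ 1) (hEd : DepC c n E)
    (h0 : ∀ l, 1 ≤ l → l < n → coe1 (c l) E = 0)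
    (hd : ∀ W : Option (Fin m) → ℝ, W none = 0 →
      |dd E x W| ≤ A * ∑ l ∈ range n, w l * |Pool.T4J.cmp c T x W l|) :
    |coe1 (c 0) E| ≤ A * w 0 := by
  have hdep : ∀ l, DepC c l (if 1 ≤ l ∧ l < n then T l else 0) := by
    intro l
    split_ifs with h
    · exact hT l h.1 h.2
    · intro b b' _ _
      rw [map_zero, map_zero]
  obtain ⟨W, hW0, hW⟩ := vec_adapt hc hdep x 0 (fun l => if l = 0 then 1 else 0) n le_rfl
  have e0 : dd (0 : MvPolynomial (Option (Fin m)) ℝ) x W = 0 := by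
    unfold dd
    simp
  have hWc0 : W (some (c 0)) = 1 := by
    have h1 := hW 0 hn
    rw [if_neg (by omega), if_pos rfl, e0, sub_zero] at h1
    exact h1
  have h1 := hd W hW0
  have h2 : ∑ l ∈ range n, w l * |Pool.T4J.cmp c T x W l| = w 0 := by
    rw [Finset.sum_eq_single 0]
    · unfold Pool.T4J.cmp
      rw [if_pos rfl, hWc0, abs_one, mul_one]
    · intro l hl hl0
      have hln := Finset.mem_range.1 hl
      have h3 := hW l hln
      rw [if_pos ⟨by omega, hln⟩, if_neg hl0] at h3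
      unfold Pool.T4J.cmp
      rw [if_neg hl0, h3, abs_zero, mul_zero]
    · intro h
      exact absurd (Finset.mem_range.2 hn) h
  have h3 : dd E x W = coe1 (c 0) E := by
    rw [dd_low hc hE hEd, hW0, mul_zero, zero_add, Finset.sum_eq_single 0]
    · rw [hWc0, mul_one]
    · intro l hl hl0
      rw [h0 l (by omega) (Finset.mem_range.1 hl), zero_mul]
    · intro h
      exact absurd (Finset.mem_range.2 hn) h
  rw [h2, h3] at h1
  exact h1

/-- **Good labels** on a part of every large event. -/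
theorem win_cls {S : PCl m}
    (hpos : ∀ (τ : ℝ) (J : ℕ) (F : Fam m J) (A : F.Ω → Prop), S.St τ J F A → 0 < Pe F.p A)
    {C₀ : ℝ} (htm : TmC S C₀) {c : ℕ → Fin m} {n : ℕ} {sn : ℕ → ℝ → ℝ} (hn1 : 1 ≤ n)
    {G : Set ℝ} (hch : ChG S c n sn G) (hc : Set.InjOn c (Set.Iio (n + 1)))
    {w : ℝ} (hw : w ∈ G) {D : ℕ} {E rd : ℕ → ℝ}
    (hbox : ∀ e : ℝ, 0 < e → Bas S (fun J F A => ∃ (V : Type) (z : PtT F → V) (z' : LnT F → V)
      (g : V → ℕ → MvPolynomial (Option (Fin m)) ℝ),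
      LbE F c (n + 1) D E e w rd (fun l => sn l w) A z z' g))
    {R : ℝ} (hE0 : ∀ l ≤ n, 0 ≤ E l) (hER : ∀ l ≤ n, sn l w + E l ≤ R) (hwR : w ≤ R)
    {θ : ℝ} (hθ : 0 ≤ θ) {ε : ℝ} (hε : 0 < ε) {η : ℝ} (hη : 0 < η) :
    Bas S (fun J F A => ∀ (Q : ℕ → ℕ) (GG : PtT F → ℕ → MvPolynomial (Option (Fin m)) ℝ)
      (HH : LnT F → ℕ → MvPolynomial (Option (Fin m)) ℝ) (Q' : ℕ)
      (GG' : PtT F → MvPolynomial (Option (Fin m)) ℝ)
      (HH' : LnT F → MvPolynomial (Option (Fin m)) ℝ),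
      (∀ l, 1 ≤ l → l ≤ n → LbQ F c l ⌊w * J⌋₊ (Q l) A (fun y => GG y l) (fun s => HH s l)) →
      (∀ l, 1 ≤ l → l ≤ n → (1 : ℝ) / 2 ^ Q l ≤ 2 * 2 ^ (-(sn l w - θ) * J)) →
      LbQ F c n ⌊w * J⌋₊ Q' A GG' HH' →
      Pb (Pool.Agent.H49.Ent.cond F.p A True) (fun ω => ¬ WinOk F c n w (fun l => sn l w)
        (ε + (n + 1) * ((n + 1) * θ)) R (1 / 2 ^ Q n) (1 / 2 ^ Q') (HH (slam F ⌊w * J⌋₊ ω))
          (HH' (slam F ⌊w * J⌋₊ ω)) ω) ≤ η) := by
  classical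
  have hn0 : (0 : ℝ) ≤ n := Nat.cast_nonneg n
  obtain ⟨u₁, rd', -, hchn⟩ := hch.ch w hw
  have hw0 : 0 ≤ w := hchn.w0
  have hw1 : w < 1 := hchn.u0
  obtain ⟨η', hη'⟩ : ∃ η' : ℝ, η' = η / (n + 3) := ⟨_, rfl⟩
  have hη0 : 0 < η' := by rw [hη']; positivity
  have hη1 : ((n : ℝ) + 3) * η' = η := by
    rw [hη']
    field_simp
  obtain ⟨J₁, hJ₁⟩ := E_big (a := ε / 2) (C := 2) (by linarith)
  have b1 := raw_cls hpos htm hch le_rfl hc hw hbox hE0 hER hwR hθ hε hη0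
  have b2 : Bas S (fun J F A => ∀ l < n + 1, ∀ (P : ℕ) (V : Type) (z : PtT F → V) (z' : LnT F → V)
      (G : V → MvPolynomial (Option (Fin m)) ℝ),
      LbP F ((range l).image c) (c l) 1 J ⌊w * J⌋₊ P A z z' G →
      Pb (Pool.Agent.H49.Ent.cond F.p A True) (fun ω =>
        ¬ |ojet F (c l) 1 (G (z' (slam F ⌊w * J⌋₊ ω))) ω| ≤
          2 ^ ((ε / 2 + (1 : ℕ) * w) * J) * (1 / 2 ^ P)) ≤ η') :=
    Bas.all _ fun l _ => own_cls htm ((range l).image c) (c l) 1 1 hw0 hw1 hη0 (by linarith)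
  have b3 := dd_cls htm (hchn.take (Nat.zero_le n) le_rfl) hn1 hθ hε 1 hη0
  refine Bas.mono J₁ (((b1.and b2).and b3).and
    ⟨1, one_pos, 0, fun J _ F A hA => hpos 1 J F A hA⟩) ?_
  rintro J hJ F A ⟨⟨⟨h1, h2⟩, h3⟩, hA⟩ Q GG HH Q' GG' HH' hL hQ hL'
  have h0 := (isLaw_cond F.isLaw hA).nonneg
  have f1 := hJ₁ J hJ
  have hex : ∀ l : ℕ, ∃ (V : Type) (y : PtT F → V) (y' : LnT F → V)
      (T : V → MvPolynomial (Option (Fin m)) ℝ), 1 ≤ l → l ≤ n →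
      LbP F ((range l).image c) (c l) 1 J ⌊w * J⌋₊ (Q l) A y y' T ∧ ∀ s, HH s l = T (y' s) := by
    intro l
    by_cases h : 1 ≤ l ∧ l ≤ n
    · obtain ⟨V, y, y', T, k1, -, k3⟩ := hL l h.1 h.2
      exact ⟨V, y, y', T, fun _ _ => ⟨k1, k3⟩⟩
    · exact ⟨Unit, fun _ => (), fun _ => (), fun _ => 0, fun a b => absurd ⟨a, b⟩ h⟩
  choose V y y' T hT using hex
  obtain ⟨V₂, z₂, z₂', G₂, k1, -, k3⟩ := hL'
  have hHe : ∀ l, 1 ≤ l → l ≤ n → ∀ ω, T l (y' l (slam F ⌊w * J⌋₊ ω)) =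
      HH (slam F ⌊w * J⌋₊ ω) l := fun l a b ω => ((hT l a b).2 _).symm
  have p1 := h1 Q V y y' T (fun l a b => (hT l a b).1) hQ
  have p2 : ∀ l < n + 1, Pb (Pool.Agent.H49.Ent.cond F.p A True) (fun ω => 1 ≤ l ∧
      ¬ |vlp F (c l) (HH (slam F ⌊w * J⌋₊ ω) l) ω| ≤
        2 ^ ((ε / 2 + (1 : ℕ) * w) * J) * (1 / 2 ^ Q l)) ≤ η' := by
    intro l hl
    by_cases hl1 : 1 ≤ l
    · refine le_trans (Pb_mono25 h0 fun ω _ hb => ?_) (h2 l hl (Q l) _ _ _ _ (hT l hl1 (by omega)).1)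
      rw [hHe l hl1 (by omega), ojet_vlp]
      exact hb.2
    · refine le_trans (Pb_mono25 h0 (B := fun _ => False) fun ω _ hb => hl1 hb.1)
        (le_of_eq_of_le ?_ hη0.le)
      unfold Pb
      simp
  have p3 := h3 (c n) (Q n) Q' Q V _ _ y y' T _ _ _ _ _ _
    (fun l a b => (hT l a (by omega)).1) (fun l a b => hQ l a (by omega)) (hT n hn1 le_rfl).1 k1
  have p4 : Pb (Pool.Agent.H49.Ent.cond F.p A True) (fun ω => ¬ A ω) ≤ 0 := by
    refine le_of_eq ?_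
    unfold Pb
    refine Finset.sum_eq_zero fun ω _ => ?_
    by_cases h : A ω
    · rw [if_neg (not_not.2 h)]
    · have h1 : ¬ 0 < Pool.Agent.H49.Ent.cond F.p A True ω := fun h2 => by
        have h3 := ((cond_pos_iff F.isLaw.nonneg A True ω).1 h2).2
        exact h (by simpa using h3)
      have h2 : Pool.Agent.H49.Ent.cond F.p A True ω = 0 := le_antisymm (not_lt.1 h1) (h0 ω)
      rw [h2]
      simp
  have q2 := Pb_ex25 h0 (fun l ω => 1 ≤ l ∧ ¬ |vlp F (c l) (HH (slam F ⌊w * J⌋₊ ω) l) ω| ≤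
        2 ^ ((ε / 2 + (1 : ℕ) * w) * J) * (1 / 2 ^ Q l)) (n + 1) p2
  have tot := (Pb_or25 h0 _ _).trans (add_le_add p1 ((Pb_or25 h0 _ _).trans (add_le_add q2
    ((Pb_or25 h0 _ _).trans (add_le_add p3 p4)))))
  push_cast at tot
  refine le_trans (Pb_mono25 h0 fun ω _ hn => ?_) (tot.trans (by linarith))
  by_contra hgood
  push Not at hgood
  obtain ⟨g1, g2, g3, g4⟩ := hgood
  refine hn ⟨fun l a b o => ?_, fun l a b => ?_, fun hz => ?_⟩
  · have k := g1 l a b o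
    rw [hHe l a b] at k
    refine k.trans (E_mono J ?_)
    have : 0 ≤ ((n : ℝ) + 1) * θ := by positivity
    linarith
  · have k := g2 l (by omega) a
    refine k.trans ((mul_le_mul_of_nonneg_left (hQ l a b) (E_pos J _).le).trans ?_)
    have e1 : ∀ X : ℝ, (2 : ℝ) ^ (X * J) * (2 * 2 ^ (-(sn l w - θ) * J)) =
        2 * (2 ^ (X * J) * 2 ^ (-(sn l w - θ) * J)) := fun X => by ring
    rw [e1, E_add]
    refine (mul_le_mul_of_nonneg_right f1 (E_pos J _).le).trans ?_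
    rw [E_add]
    refine E_mono J ?_
    have e2 : 0 ≤ (n : ℝ) * θ := by positivity
    have e3 : 0 ≤ (n : ℝ) * ((n + 1) * θ) := by positivity
    push_cast
    linarith
  · have hdep : ∀ l, 1 ≤ l → l ≤ n → DepC c l (T l (y' l (slam F ⌊w * J⌋₊ ω))) := by
      intro l a b b₁ b₂ e1 e2
      refine (hT l a b).1.dep _ b₁ b₂ e1 fun k hk => ?_
      obtain ⟨l', hl', rfl⟩ := mem_image.1 hk
      exact e2 l' (mem_range.1 hl')
    have hdep' : DepC c n (G₂ (z₂' (slam F ⌊w * J⌋₊ ω))) := by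
      intro b₁ b₂ e1 e2
      refine k1.dep _ b₁ b₂ e1 fun k hk => ?_
      obtain ⟨l', hl', rfl⟩ := mem_image.1 hk
      exact e2 l' (mem_range.1 hl')
    have hE1 : HH (slam F ⌊w * J⌋₊ ω) n - HH' (slam F ⌊w * J⌋₊ ω) =
        T n (y' n (slam F ⌊w * J⌋₊ ω)) - G₂ (z₂' (slam F ⌊w * J⌋₊ ω)) := by
      rw [hHe n hn1 le_rfl, k3]
    rw [hE1] at hz ⊢
    have key := dif_alg (n := n) hn1 (hc.mono fun a ha => by
        rw [Set.mem_Iio] at ha ⊢
        omega) (T := fun l => T l (y' l (slam F ⌊w * J⌋₊ ω)))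
      (E := T n (y' n (slam F ⌊w * J⌋₊ ω)) - G₂ (z₂' (slam F ⌊w * J⌋₊ ω))) (x := bt F ω)
      (A := 2 ^ ((ε + n * θ) * J) * (1 / 2 ^ Q n + 1 / 2 ^ Q')) (w := fun l => 2 ^ (sn l w * J))
      (by positivity) (fun l a b => hdep l a (by omega))
      ((totalDegree_sub _ _).trans (max_le ((hT n hn1 le_rfl).1.deg _) (k1.deg _)))
      (fun b b' e1 e2 => by
        rw [map_sub, map_sub, hdep n hn1 le_rfl b b' e1 e2, hdep' b b' e1 e2]) hz g3
    refine key.trans ?_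
    have e2 : (2 : ℝ) ^ ((ε + n * θ) * J) * (1 / 2 ^ Q n + 1 / 2 ^ Q') * 2 ^ (sn 0 w * J) =
        2 ^ ((ε + n * θ) * J) * 2 ^ (sn 0 w * J) * (1 / 2 ^ Q n + 1 / 2 ^ Q') := by ring
    rw [e2, E_add]
    refine mul_le_mul_of_nonneg_right (E_mono J ?_) (by positivity)
    have e3 : (n : ℝ) * θ ≤ (n + 1) * ((n + 1) * θ) := by
      have e4 : 0 ≤ (n : ℝ) * (n * θ) := by positivity
      have e5 : 0 ≤ (n : ℝ) * θ := by positivity
      linarith
    linarith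

end Pool.T4J
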